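import Mathlib

/-!
# Limits of subgroups of a finite dimensional space along an ultrafilter

For a sequence of additive subgroups `L k` of `ℝ^n` that contain `ℤ^n`, the limit `H` along an
ultrafilter is a closed subgroup, and `L k ≤ H` for almost all `k` (`T^n / H` has no small
subgroups). Hence the elements of `L k` can be approximated by elements of `L l`, for almost all `l`.
-/

set_option autoImplicit false
set_option linter.unusedSectionVars false

namespace Pool.Agent.R890

open Filter Topology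

section Closed

variable {E : Type} [NormedAddCommGroup E] [NormedSpace ℝ E] [FiniteDimensional ℝ E]

/-- The largest linear subspace in a subgroup. -/
def linPart (H : AddSubgroup E) : Submodule ℝ E where
  carrier := {v | ∀ s : ℝ, s • v ∈ H}
  add_mem' := by
    intro a b ha hb s
    rw [smul_add]
    exact H.add_mem (ha s) (hb s)
  zero_mem' := by
    intro s
    rw [smul_zero]
    exact H.zero_mem
  smul_mem' := by
    intro c v hv s
    rw [smul_smul]
    exact hv _

theorem mem_linPart {H : AddSubgroup E} {v : E} : v ∈ linPart H ↔ ∀ s : ℝ, s • v ∈ H := Iff.rfl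

theorem linPart_le {H : AddSubgroup E} {v : E} (hv : v ∈ linPart H) : v ∈ H := by
  have := hv 1
  rwa [one_smul] at this

/-- A projection to a complement of a subspace. -/
theorem exists_proj (V : Submodule ℝ E) : ∃ (W : Submodule ℝ E) (π : E →ₗ[ℝ] W), IsCompl V W ∧
    (∀ w : W, π w = w) ∧ ∀ x, π x = 0 ↔ x ∈ V := by
  obtain ⟨W, hW⟩ := Submodule.exists_isCompl V
  exact ⟨W, W.projectionOnto V hW.symm, hW, fun w => Submodule.projectionOnto_apply_left _ w,
    fun x => Submodule.projectionOnto_apply_eq_zero_iff _⟩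

/-- A closed subgroup is a linear subspace near the origin. -/
theorem exists_local (H : AddSubgroup E) (hH : IsClosed (H : Set E)) :
    ∃ δ > 0, ∀ h ∈ H, ‖h‖ < δ → h ∈ linPart H := by
  by_contra hcon
  push Not at hcon
  obtain ⟨W, π, hW, hπ1, hπ2⟩ := exists_proj (linPart H)
  have hπc : Continuous π := LinearMap.continuous_of_finiteDimensional π
  -- a sequence of small elements outside the linear part
  have hδ : ∀ n : ℕ, (0 : ℝ) < 1 / ((n : ℝ) + 1) := fun n => by positivity
  choose h hmem hsmall hnot using fun n : ℕ => hcon (1 / ((n : ℝ) + 1)) (hδ n)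
  have hsub : ∀ x : E, x - (π x : E) ∈ linPart H := by
    intro x
    have h1 : π (x - (π x : E)) = 0 := by
      rw [map_sub, hπ1, sub_self]
    rwa [hπ2] at h1
  set w : ℕ → E := fun n => (π (h n) : E) with hw
  have hwH : ∀ n, w n ∈ H := by
    intro n
    have h1 := H.sub_mem (hmem n) (linPart_le (hsub (h n)))
    have h2 : h n - (h n - (π (h n) : E)) = w n := by rw [sub_sub_cancel]
    rwa [h2] at h1
  have hw0 : ∀ n, w n ≠ 0 := by
    intro n h0
    apply hnot n
    have h1 := hsub (h n)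
    have h2 : (π (h n) : E) = 0 := h0
    rwa [h2, sub_zero] at h1
  have hh0 : Tendsto h atTop (𝓝 0) := by
    rw [tendsto_zero_iff_norm_tendsto_zero]
    refine squeeze_zero (fun n => norm_nonneg _) (fun n => (hsmall n).le) ?_
    exact tendsto_one_div_add_atTop_nhds_zero_nat
  have hwt : Tendsto w atTop (𝓝 0) := by
    have h1 : Tendsto (fun n => ((π (h n) : W) : E)) atTop (𝓝 ((π 0 : W) : E)) :=
      ((continuous_subtype_val.comp hπc).tendsto 0).comp hh0
    rw [map_zero, ZeroMemClass.coe_zero] at h1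
    exact h1
  -- the directions
  have hn0 : ∀ n, 0 < ‖w n‖ := fun n => norm_pos_iff.2 (hw0 n)
  set u : ℕ → E := fun n => ‖w n‖⁻¹ • w n with hu
  have hus : ∀ n, u n ∈ Metric.sphere (0 : E) 1 := by
    intro n
    rw [mem_sphere_zero_iff_norm, hu]
    simp only [norm_smul, norm_inv, norm_norm]
    exact inv_mul_cancel₀ (hn0 n).ne'
  obtain ⟨a, ha, φ, hφ, hat⟩ := (isCompact_sphere (0 : E) 1).tendsto_subseq hus
  -- the limit direction is in the linear part
  have haV : a ∈ linPart H := by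
    intro s
    have h1 : Tendsto (fun n => (⌊s / ‖w (φ n)‖⌋ : ℝ) • w (φ n)) atTop (𝓝 (s • a)) := by
      have h2 : ∀ n, (⌊s / ‖w (φ n)‖⌋ : ℝ) • w (φ n) =
          s • u (φ n) - (Int.fract (s / ‖w (φ n)‖)) • w (φ n) := by
        intro n
        rw [hu]
        simp only
        rw [smul_smul, ← sub_smul]
        congr 1
        have h3 := Int.floor_add_fract (s / ‖w (φ n)‖)
        have h4 : s / ‖w (φ n)‖ = s * ‖w (φ n)‖⁻¹ := div_eq_mul_inv _ _
        linarith
      simp only [h2]
      have h5 : Tendsto (fun n => (Int.fract (s / ‖w (φ n)‖)) • w (φ n)) atTop (𝓝 0) := by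
        rw [tendsto_zero_iff_norm_tendsto_zero]
        have h6 : Tendsto (fun n => ‖w (φ n)‖) atTop (𝓝 0) := by
          have := (tendsto_zero_iff_norm_tendsto_zero.1 hwt).comp hφ.tendsto_atTop
          exact this
        refine squeeze_zero (fun n => norm_nonneg _) (fun n => ?_) h6
        rw [norm_smul, Real.norm_eq_abs, abs_of_nonneg (Int.fract_nonneg _)]
        have := (Int.fract_lt_one (s / ‖w (φ n)‖)).le
        exact mul_le_of_le_one_left (norm_nonneg _) this
      have h7 : Tendsto (fun n => s • u (φ n)) atTop (𝓝 (s • a)) := hat.const_smul s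
      have := h7.sub h5
      rwa [sub_zero] at this
    refine hH.mem_of_tendsto h1 (Eventually.of_forall fun n => ?_)
    have h3 : (⌊s / ‖w (φ n)‖⌋ : ℝ) • w (φ n) = ⌊s / ‖w (φ n)‖⌋ • w (φ n) := by
      rw [Int.cast_smul_eq_zsmul]
    rw [SetLike.mem_coe, h3]
    exact H.zsmul_mem (hwH _) _
  -- but it is in the complement
  have haW : a ∈ W := by
    have hc : IsClosed (W : Set E) := Submodule.closed_of_finiteDimensional W
    refine hc.mem_of_tendsto hat (Eventually.of_forall fun n => ?_)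
    exact W.smul_mem _ (π (h (φ n))).2
  have h0 : a = 0 := by
    have := hW.disjoint
    rw [Submodule.disjoint_def] at this
    exact this a haV haW
  rw [mem_sphere_zero_iff_norm, h0, norm_zero] at ha
  exact zero_ne_one ha

/-- A subgroup in a small neighbourhood of a closed subgroup `H` is contained in `H`. -/
theorem exists_noSmall (H : AddSubgroup E) (hH : IsClosed (H : Set E)) :
    ∃ ρ > 0, ∀ L : AddSubgroup E, (∀ x ∈ L, ∃ h ∈ H, ‖x - h‖ < ρ) → L ≤ H := by
  obtain ⟨δ, hδ, hloc⟩ := exists_local H hH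
  obtain ⟨W, π, hW, hπ1, hπ2⟩ := exists_proj (linPart H)
  let π' : E →L[ℝ] W := LinearMap.toContinuousLinearMap π
  have hker : ∀ x : E, x ∈ linPart H → π x = 0 := by
    intro x hx
    rwa [hπ2]
  refine ⟨δ / 3, by positivity, fun L hL x hx => ?_⟩
  have hm : ∀ m : ℕ, ∃ h ∈ H, ‖(m : ℝ) • x - h‖ < δ / 3 := by
    intro m
    have h1 : (m : ℝ) • x = m • x := Nat.cast_smul_eq_nsmul ℝ m x
    rw [h1]
    exact hL _ (L.nsmul_mem hx m)
  choose h hH' hsm using hm
  -- the remainders are additive modulo the linear part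
  have hstep : ∀ m : ℕ, h m + h 1 - h (m + 1) ∈ linPart H := by
    intro m
    refine hloc _ (H.sub_mem (H.add_mem (hH' m) (hH' 1)) (hH' (m + 1))) ?_
    have e : h m + h 1 - h (m + 1) = (((m + 1 : ℕ) : ℝ) • x - h (m + 1)) -
        ((m : ℝ) • x - h m) - (((1 : ℕ) : ℝ) • x - h 1) := by
      push_cast
      rw [add_smul, one_smul]
      abel
    rw [e]
    calc _ ≤ ‖((m + 1 : ℕ) : ℝ) • x - h (m + 1) - ((m : ℝ) • x - h m)‖ +
          ‖((1 : ℕ) : ℝ) • x - h 1‖ := norm_sub_le _ _
      _ ≤ (‖((m + 1 : ℕ) : ℝ) • x - h (m + 1)‖ + ‖(m : ℝ) • x - h m‖) +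
          ‖((1 : ℕ) : ℝ) • x - h 1‖ := by gcongr; exact norm_sub_le _ _
      _ < (δ / 3 + δ / 3) + δ / 3 := by
        gcongr
        · exact hsm (m + 1)
        · exact hsm m
        · exact hsm 1
      _ = δ := by ring
  set r : ℕ → E := fun m => (m : ℝ) • x - h m with hr
  have hπr : ∀ m : ℕ, π (r (m + 1)) = π (r m) + π (r 1) := by
    intro m
    have h1 := hker _ (hstep m)
    have e : h m + h 1 - h (m + 1) = r (m + 1) - r m - r 1 := by
      simp only [hr]
      push_cast
      rw [add_smul, one_smul]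
      abel
    rw [e, map_sub, map_sub, sub_sub, sub_eq_zero] at h1
    exact h1
  have hπr' : ∀ m : ℕ, π (r (m + 1)) = ((m : ℝ) + 1) • π (r 1) := by
    intro m
    induction m with
    | zero => simp
    | succ m ih =>
      rw [hπr (m + 1), ih]
      push_cast
      rw [add_smul ((m : ℝ) + 1), one_smul]
  have hzero : π (r 1) = 0 := by
    by_contra hne
    have hpos : 0 < ‖π (r 1)‖ := norm_pos_iff.2 hne
    obtain ⟨m, hm⟩ := exists_nat_gt (‖π'‖ * (δ / 3) / ‖π (r 1)‖)
    have h1 : ‖π (r (m + 1))‖ ≤ ‖π'‖ * (δ / 3) := by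
      have h2 := π'.le_opNorm (r (m + 1))
      refine h2.trans ?_
      gcongr
      exact (hsm (m + 1)).le
    rw [hπr', norm_smul, Real.norm_eq_abs, abs_of_nonneg (by positivity)] at h1
    rw [div_lt_iff₀ hpos] at hm
    nlinarith
  have h1 : r 1 ∈ linPart H := by
    rwa [hπ2] at hzero
  have h2 := H.add_mem (linPart_le h1) (hH' 1)
  have h3 : r 1 + h 1 = x := by
    simp only [hr]
    push_cast
    rw [one_smul]
    abel
  rwa [h3] at h2

end Closed

section Limit

variable {n : ℕ} (U : Ultrafilter ℕ) (L : ℕ → AddSubgroup (Fin n → ℝ))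

/-- The limit of the subgroups `L k` along the ultrafilter. -/
def limGrp : AddSubgroup (Fin n → ℝ) where
  carrier := {x | ∀ η > 0, ∀ᶠ l in (U : Filter ℕ), ∃ y ∈ L l, ‖x - y‖ < η}
  add_mem' := by
    intro a b ha hb η hη
    filter_upwards [ha (η / 2) (by positivity), hb (η / 2) (by positivity)] with l h1 h2
    obtain ⟨y, hy, hy'⟩ := h1
    obtain ⟨z, hz, hz'⟩ := h2
    refine ⟨y + z, (L l).add_mem hy hz, ?_⟩
    have e : a + b - (y + z) = (a - y) + (b - z) := by abel
    rw [e]
    calc _ ≤ ‖a - y‖ + ‖b - z‖ := norm_add_le _ _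
      _ < η / 2 + η / 2 := by gcongr
      _ = η := by ring
  zero_mem' := by
    intro η hη
    exact Eventually.of_forall fun l => ⟨0, (L l).zero_mem, by simpa using hη⟩
  neg_mem' := by
    intro a ha η hη
    filter_upwards [ha η hη] with l h1
    obtain ⟨y, hy, hy'⟩ := h1
    refine ⟨-y, (L l).neg_mem hy, ?_⟩
    have e : -a - -y = -(a - y) := by abel
    rwa [e, norm_neg]

theorem mem_limGrp {x : Fin n → ℝ} : x ∈ limGrp U L ↔
    ∀ η > 0, ∀ᶠ l in (U : Filter ℕ), ∃ y ∈ L l, ‖x - y‖ < η := Iff.rfl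

theorem isClosed_limGrp : IsClosed (limGrp U L : Set (Fin n → ℝ)) := by
  rw [← closure_subset_iff_isClosed]
  intro x hx η hη
  rw [Metric.mem_closure_iff] at hx
  obtain ⟨b, hb, hxb⟩ := hx (η / 2) (by positivity)
  filter_upwards [hb (η / 2) (by positivity)] with l h1
  obtain ⟨y, hy, hy'⟩ := h1
  refine ⟨y, hy, ?_⟩
  rw [dist_eq_norm] at hxb
  have e : x - y = (x - b) + (b - y) := by abel
  rw [e]
  calc _ ≤ ‖x - b‖ + ‖b - y‖ := norm_add_le _ _
    _ < η / 2 + η / 2 := by gcongr
    _ = η := by ring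

variable {L}

/-- For almost all `k`, the group `L k` lies in a small neighbourhood of the limit. -/
theorem eventually_near (hZ : ∀ k, ∀ z : Fin n → ℤ, (fun i => (z i : ℝ)) ∈ L k) {ρ : ℝ}
    (hρ : 0 < ρ) : ∀ᶠ k in (U : Filter ℕ), ∀ x ∈ L k, ∃ h ∈ limGrp U L, ‖x - h‖ < ρ := by
  by_contra hcon
  rw [← Ultrafilter.eventually_not] at hcon
  have hZ' : ∀ z : Fin n → ℤ, (fun i => (z i : ℝ)) ∈ limGrp U L := by
    intro z η hη
    exact Eventually.of_forall fun l => ⟨_, hZ l z, by simpa using hη⟩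
  -- choose bad points in the unit cube
  have hbad : ∀ k, ∃ y : Fin n → ℝ, y ∈ Set.Icc (0 : Fin n → ℝ) 1 ∧
      ((¬ ∀ x ∈ L k, ∃ h ∈ limGrp U L, ‖x - h‖ < ρ) →
        y ∈ L k ∧ ∀ h ∈ limGrp U L, ρ ≤ ‖y - h‖) := by
    intro k
    by_cases hk : ∀ x ∈ L k, ∃ h ∈ limGrp U L, ‖x - h‖ < ρ
    · exact ⟨0, ⟨le_rfl, fun i => zero_le_one⟩, fun h => absurd hk h⟩
    · have hk' := hk
      push Not at hk'
      obtain ⟨x, hx, hx'⟩ := hk'
      have e : (fun i => Int.fract (x i)) = x - fun i => ((⌊x i⌋ : ℤ) : ℝ) := by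
        funext i
        rw [Pi.sub_apply, Int.self_sub_floor]
      refine ⟨fun i => Int.fract (x i), ⟨fun i => Int.fract_nonneg _,
        fun i => (Int.fract_lt_one _).le⟩, fun _ => ⟨?_, fun h hh => ?_⟩⟩
      · rw [e]
        exact (L k).sub_mem hx (hZ k _)
      · rw [e]
        have h1 := hx' (h + fun i => ((⌊x i⌋ : ℤ) : ℝ)) ((limGrp U L).add_mem hh (hZ' _))
        have e2 : x - (h + fun i => ((⌊x i⌋ : ℤ) : ℝ)) = x - (fun i => ((⌊x i⌋ : ℤ) : ℝ)) - h := by
          abel
        rwa [e2] at h1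
  choose y hy hyb using hbad
  -- their limit
  have hcpt : IsCompact (Set.Icc (0 : Fin n → ℝ) 1) := isCompact_Icc
  have hle : ((U.map y : Ultrafilter (Fin n → ℝ)) : Filter (Fin n → ℝ)) ≤
      𝓟 (Set.Icc (0 : Fin n → ℝ) 1) := by
    rw [Ultrafilter.coe_map, le_principal_iff, mem_map]
    exact Filter.univ_mem' fun k => hy k
  obtain ⟨a, _, hat⟩ := hcpt.ultrafilter_le_nhds _ hle
  have hat' : Tendsto y (U : Filter ℕ) (𝓝 a) := by
    rw [Ultrafilter.coe_map] at hat
    exact hat
  have hclose : ∀ η > 0, ∀ᶠ k in (U : Filter ℕ), ‖a - y k‖ < η := by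
    intro η hη
    have := hat' (Metric.ball_mem_nhds a hη)
    filter_upwards [this] with k hk
    have h1 : dist (y k) a < η := hk
    rwa [dist_comm, dist_eq_norm] at h1
  have ha : a ∈ limGrp U L := by
    intro η hη
    filter_upwards [hclose η hη, hcon] with k h1 h2
    exact ⟨y k, (hyb k h2).1, h1⟩
  obtain ⟨k, hk1, hk2⟩ := (Filter.Eventually.and (hclose ρ hρ) hcon).exists
  have h3 := (hyb k hk2).2 a ha
  rw [← neg_sub, norm_neg] at h3
  linarith

/-- For almost all `k`, each finite set of elements of `L k` is approximated by elements of `L l`,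
for almost all `l`. -/
theorem eventually_approx (hZ : ∀ k, ∀ z : Fin n → ℤ, (fun i => (z i : ℝ)) ∈ L k) :
    ∀ᶠ k in (U : Filter ℕ), ∀ S : Set (Fin n → ℝ), S.Finite → S ⊆ L k → ∀ η > 0,
      ∀ᶠ l in (U : Filter ℕ), ∀ x ∈ S, ∃ y ∈ L l, ‖x - y‖ < η := by
  obtain ⟨ρ, hρ, h⟩ := exists_noSmall (limGrp U L) (isClosed_limGrp U L)
  filter_upwards [eventually_near U hZ hρ] with k hk S hS hSL η hη
  have h1 := h (L k) hk
  rw [Filter.eventually_all_finite hS]
  intro x hx
  exact h1 (hSL hx) η hη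

end Limit

end Pool.Agent.R890
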