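import Mathlib
import Pool.Agent.R890.Approx

/-!
# Germs of lattices in the positive orthant

`Adm L` says that `L` is a subgroup of `ℝ^n` that contains `ℤ^n` and has finitely many points in the
unit cube. For a sequence of such subgroups there are `k < l` such that each lower bound of a linear
function on the points of `L l` with positive coordinates is a lower bound on the points of `L k`
with positive coordinates.
-/

set_option autoImplicit false

namespace Pool.Agent.R890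

open Filter Topology

/-- A subgroup of `ℝ^n` that contains `ℤ^n` and has finitely many points in the unit cube. -/
structure Adm {n : ℕ} (L : AddSubgroup (Fin n → ℝ)) : Prop where
  int : ∀ z : Fin n → ℤ, (fun i => (z i : ℝ)) ∈ L
  fin : {v : Fin n → ℝ | v ∈ L ∧ ∀ i, 0 ≤ v i ∧ v i ≤ 1}.Finite

variable {n : ℕ}

/-- Each element of an admissible subgroup has a positive integral multiple. -/
theorem Adm.exists_order {L : AddSubgroup (Fin n → ℝ)} (hL : Adm L) {x : Fin n → ℝ} (hx : x ∈ L) :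
    ∃ q : ℕ, 0 < q ∧ ∃ z : Fin n → ℤ, ∀ i, (q : ℝ) * x i = z i := by
  have hmem : ∀ m : ℕ, (fun i => Int.fract ((m : ℝ) * x i)) ∈
      {v : Fin n → ℝ | v ∈ L ∧ ∀ i, 0 ≤ v i ∧ v i ≤ 1} := by
    intro m
    refine ⟨?_, fun i => ⟨Int.fract_nonneg _, (Int.fract_lt_one _).le⟩⟩
    have e : (fun i => Int.fract ((m : ℝ) * x i)) =
        m • x - fun i => ((⌊(m : ℝ) * x i⌋ : ℤ) : ℝ) := by
      funext i
      rw [Pi.sub_apply, Pi.smul_apply, nsmul_eq_mul, Int.self_sub_floor]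
    rw [e]
    exact L.sub_mem (L.nsmul_mem hx m) (hL.int _)
  obtain ⟨a, _, b, _, hab, he⟩ := Set.infinite_univ.exists_ne_map_eq_of_mapsTo
    (f := fun m : ℕ => (fun i => Int.fract ((m : ℝ) * x i))) (fun m _ => hmem m) hL.fin
  wlog hlt : a < b generalizing a b
  · exact this b (Set.mem_univ _) a (Set.mem_univ _) hab.symm he.symm
      (lt_of_le_of_ne (not_lt.1 hlt) hab.symm)
  refine ⟨b - a, Nat.sub_pos_of_lt hlt, fun i => ⌊(b : ℝ) * x i⌋ - ⌊(a : ℝ) * x i⌋, fun i => ?_⟩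
  have h1 := congrFun he i
  rw [Nat.cast_sub hlt.le]
  push_cast
  have h2 := Int.floor_add_fract ((a : ℝ) * x i)
  have h3 := Int.floor_add_fract ((b : ℝ) * x i)
  linarith

/-- The germ lemma. -/
theorem exists_germ (L : ℕ → AddSubgroup (Fin n → ℝ)) (hL : ∀ k, Adm (L k)) :
    ∃ k l, k < l ∧ ∀ (c : Fin n → ℝ) (a : ℝ),
      (∀ v ∈ L l, (∀ i, 0 < v i) → a ≤ ∑ i, v i * c i) →
        ∀ v ∈ L k, (∀ i, 0 < v i) → a ≤ ∑ i, v i * c i := by
  classical
  obtain ⟨k, hk⟩ := (eventually_approx (hyperfilter ℕ) (fun k => (hL k).int)).exists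
  -- the finite set of representatives
  set S : Set (Fin n → ℝ) := {x | x ∈ L k ∧ ∀ i, 0 < x i ∧ x i ≤ 1} with hS
  have hSf : S.Finite := (hL k).fin.subset fun x hx => ⟨hx.1, fun i => ⟨(hx.2 i).1.le, (hx.2 i).2⟩⟩
  have hex : ∀ x ∈ S, ∃ q : ℕ, 0 < q ∧ (∃ z : Fin n → ℤ, ∀ i, (q : ℝ) * x i = z i) ∧
      ∃ η : ℝ, 0 < η ∧ ∀ i, (q : ℝ) * η ≤ x i := by
    intro x hx
    obtain ⟨q, hq, hz⟩ := (hL k).exists_order hx.1
    refine ⟨q, hq, hz, ?_⟩
    have hq' : (0 : ℝ) < q := Nat.cast_pos.2 hq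
    have h1 : ∀ᶠ δ : ℝ in 𝓝[>] 0, ∀ i, δ < x i := by
      rw [eventually_all]
      intro i
      filter_upwards [Ioo_mem_nhdsGT (hx.2 i).1] with δ hδ
      exact hδ.2
    obtain ⟨δ, h2, h3⟩ := (h1.and self_mem_nhdsWithin).exists
    refine ⟨δ / q, div_pos h3 hq', fun i => ?_⟩
    rw [mul_div_cancel₀ _ hq'.ne']
    exact (h2 i).le
  have hev : ∀ᶠ l in (hyperfilter ℕ : Filter ℕ), ∀ x ∈ S, ∃ q : ℕ, 0 < q ∧
      (∃ z : Fin n → ℤ, ∀ i, (q : ℝ) * x i = z i) ∧
      ∃ η : ℝ, 0 < η ∧ (∀ i, (q : ℝ) * η ≤ x i) ∧ ∃ y ∈ L l, ‖x - y‖ < η := by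
    rw [Filter.eventually_all_finite hSf]
    intro x hx
    obtain ⟨q, hq, hz, η, hη, hη'⟩ := hex x hx
    filter_upwards [hk {x} (Set.finite_singleton x) (by
      intro y hy
      rw [Set.mem_singleton_iff] at hy
      rw [hy]
      exact hx.1) η hη] with l hl
    exact ⟨q, hq, hz, η, hη, hη', hl x rfl⟩
  have hlt : ∀ᶠ l in (hyperfilter ℕ : Filter ℕ), k < l := by
    have h1 : ∀ᶠ l in (cofinite : Filter ℕ), k < l := by
      rw [Nat.cofinite_eq_atTop]
      exact eventually_gt_atTop k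
    exact h1.filter_mono (hyperfilter_le_cofinite)
  obtain ⟨l, hl, hkl⟩ := (hev.and hlt).exists
  refine ⟨k, l, hkl, fun c a hc v hv hpos => ?_⟩
  -- the representative of `v`
  set z : Fin n → ℤ := fun i => ⌈v i⌉ - 1 with hz
  set x : Fin n → ℝ := v - (fun i => ((z i : ℤ) : ℝ)) with hx
  have hz0 : ∀ i, (0 : ℝ) ≤ z i := by
    intro i
    have h1 : 0 < ⌈v i⌉ := Int.ceil_pos.2 (hpos i)
    have h2 : (0 : ℤ) ≤ z i := by
      rw [hz]
      simp only
      omega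
    exact_mod_cast h2
  have hxi : ∀ i, x i = v i - z i := fun i => rfl
  have hxS : x ∈ S := by
    refine ⟨(L k).sub_mem hv ((hL k).int z), fun i => ?_⟩
    rw [hxi]
    have h1 := Int.le_ceil (v i)
    have h2 := Int.ceil_lt_add_one (v i)
    have h3 : (z i : ℝ) = (⌈v i⌉ : ℝ) - 1 := by
      rw [hz]
      push_cast
      ring
    rw [h3]
    constructor <;> linarith
  obtain ⟨q, hq, ⟨w, hw⟩, η, hη, hηx, y, hy, hxy⟩ := hl x hxS
  have hq' : (0 : ℝ) < q := Nat.cast_pos.2 hq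
  have hq1 : (1 : ℝ) ≤ q := by exact_mod_cast hq
  have hu : ∀ i, |y i - x i| < η := by
    intro i
    have h1 : ‖(x - y) i‖ ≤ ‖x - y‖ := norm_le_pi_norm _ i
    rw [Pi.sub_apply, Real.norm_eq_abs, abs_sub_comm] at h1
    exact h1.trans_lt hxy
  -- the two points
  have hA : (fun i => v i + (y i - x i)) ∈ L l := by
    have e : (fun i => v i + (y i - x i)) = (fun i => ((z i : ℤ) : ℝ)) + y := by
      funext i
      rw [Pi.add_apply, hxi]
      ring
    rw [e]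
    exact (L l).add_mem ((hL l).int z) hy
  have hB : (fun i => v i - ((q : ℝ) - 1) * (y i - x i)) ∈ L l := by
    have e : (fun i => v i - ((q : ℝ) - 1) * (y i - x i)) =
        (fun i => (((z i + w i : ℤ)) : ℝ)) + y - q • y := by
      funext i
      simp only [Pi.add_apply, Pi.sub_apply, Pi.smul_apply]
      rw [nsmul_eq_mul]
      push_cast
      rw [← hw i, hxi]
      ring
    rw [e]
    exact (L l).sub_mem ((L l).add_mem ((hL l).int _) hy) ((L l).nsmul_mem hy q)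
  have hApos : ∀ i, 0 < v i + (y i - x i) := by
    intro i
    have h1 := abs_lt.1 (hu i)
    have h2 := hηx i
    have h3 := hxi i
    have h4 := hz0 i
    nlinarith
  have hBpos : ∀ i, 0 < v i - ((q : ℝ) - 1) * (y i - x i) := by
    intro i
    have h1 := abs_lt.1 (hu i)
    have h2 := hηx i
    have h3 := hxi i
    have h4 := hz0 i
    nlinarith
  have h1 := hc _ hA hApos
  have h2 := hc _ hB hBpos
  have h3 : (q : ℝ) * ∑ i, v i * c i = ((q : ℝ) - 1) * ∑ i, (v i + (y i - x i)) * c i +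
      ∑ i, (v i - ((q : ℝ) - 1) * (y i - x i)) * c i := by
    rw [Finset.mul_sum, Finset.mul_sum, ← Finset.sum_add_distrib]
    refine Finset.sum_congr rfl fun i _ => ?_
    ring
  have h4 : (q : ℝ) * a ≤ (q : ℝ) * ∑ i, v i * c i := by
    rw [h3]
    have h5 : ((q : ℝ) - 1) * a ≤ ((q : ℝ) - 1) * ∑ i, (v i + (y i - x i)) * c i :=
      mul_le_mul_of_nonneg_left h1 (by linarith)
    linarith
  exact le_of_mul_le_mul_left h4 hq'

/-- The germ set of an admissible subgroup. -/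
def germSet {s : ℕ} (a : ℝ) (L : AddSubgroup (Fin n → ℝ)) (α : Fin n → ℝ)
    (β : Fin n → Fin s → ℝ) : Set (Fin s → ℝ) :=
  {t | (∀ j, 0 ≤ t j) ∧ ∀ v ∈ L, (∀ i, 0 < v i) → a ≤ ∑ i, v i * (1 - α i - ∑ j, t j * β i j)}

/-- For a sequence of germ sets with coefficients in a partially well ordered set, there are `k < l`
such that the germ set of `l` lies in the germ set of `k`. -/
theorem exists_germSet {s : ℕ} (a : ℝ) (Γ : Set ℝ) (hΓ : Γ.IsPWO)
    (L : ℕ → AddSubgroup (Fin n → ℝ)) (α : ℕ → Fin n → ℝ) (β : ℕ → Fin n → Fin s → ℝ)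
    (hL : ∀ k, Adm (L k)) (hα : ∀ k i, α k i ∈ Γ) (hβ : ∀ k i j, β k i j ∈ Γ) :
    ∃ k l, k < l ∧ germSet a (L l) (α l) (β l) ⊆ germSet a (L k) (α k) (β k) := by
  have h1 : ({f : Fin n → ℝ | ∀ i, f i ∈ Γ}).IsPWO := by
    have := Set.IsPWO.pi (fun _ : Fin n => hΓ)
    simpa [Set.pi] using this
  have h2 : ({g : Fin n → Fin s → ℝ | ∀ i, g i ∈ {f : Fin s → ℝ | ∀ j, f j ∈ Γ}}).IsPWO := by
    have h3 : ({f : Fin s → ℝ | ∀ j, f j ∈ Γ}).IsPWO := by
      have := Set.IsPWO.pi (fun _ : Fin s => hΓ)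
      simpa [Set.pi] using this
    have := Set.IsPWO.pi (fun _ : Fin n => h3)
    simpa [Set.pi] using this
  obtain ⟨φ, hφ⟩ := h1.exists_monotone_subseq (f := α) (fun k => hα k)
  obtain ⟨ψ, hψ⟩ := h2.exists_monotone_subseq (f := fun k => β (φ k)) (fun k i j => hβ _ i j)
  obtain ⟨k, l, hkl, h⟩ := exists_germ (fun k => L (φ (ψ k))) (fun k => hL _)
  refine ⟨φ (ψ k), φ (ψ l), φ.strictMono (ψ.strictMono hkl), fun t ht => ⟨ht.1, fun v hv hpos => ?_⟩⟩
  have hmα : ∀ i, α (φ (ψ k)) i ≤ α (φ (ψ l)) i := fun i => hφ (ψ.monotone hkl.le) i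
  have hmβ : ∀ i j, β (φ (ψ k)) i j ≤ β (φ (ψ l)) i j := fun i j => hψ hkl.le i j
  refine h (fun i => 1 - α (φ (ψ k)) i - ∑ j, t j * β (φ (ψ k)) i j) a (fun u hu hu0 => ?_) v hv hpos
  refine (ht.2 u hu hu0).trans ?_
  refine Finset.sum_le_sum fun i _ => mul_le_mul_of_nonneg_left ?_ (hu0 i).le
  have h5 : ∑ j, t j * β (φ (ψ k)) i j ≤ ∑ j, t j * β (φ (ψ l)) i j :=
    Finset.sum_le_sum fun j _ => mul_le_mul_of_nonneg_left (hmβ i j) (ht.1 j)
  have h6 := hmα i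
  linarith

/-- The germ sets with at most `d` coordinates and with coefficients in `Γ`. -/
def Germs (d s : ℕ) (a : ℝ) (Γ : Set ℝ) : Set (Set (Fin s → ℝ)) :=
  {A | ∃ n ≤ d, ∃ (L : AddSubgroup (Fin n → ℝ)) (α : Fin n → ℝ) (β : Fin n → Fin s → ℝ),
    Adm L ∧ (∀ i, α i ∈ Γ) ∧ (∀ i j, β i j ∈ Γ) ∧ A = germSet a L α β}

theorem germs_wqo (d s : ℕ) (a : ℝ) (Γ : Set ℝ) (hΓ : Γ.IsPWO) :
    (Germs d s a Γ).PartiallyWellOrderedOn (fun A B => B ⊆ A) := by
  have h1 : ∀ n : ℕ, ({A | ∃ (L : AddSubgroup (Fin n → ℝ)) (α : Fin n → ℝ)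
      (β : Fin n → Fin s → ℝ), Adm L ∧ (∀ i, α i ∈ Γ) ∧ (∀ i j, β i j ∈ Γ) ∧
        A = germSet a L α β} : Set (Set (Fin s → ℝ))).PartiallyWellOrderedOn
          (fun A B => B ⊆ A) := by
    intro n
    rw [Set.partiallyWellOrderedOn_iff_exists_lt]
    intro f hf
    choose L α β hL hα hβ he using hf
    obtain ⟨k, l, hkl, h⟩ := exists_germSet a Γ hΓ L α β hL hα hβ
    refine ⟨k, l, hkl, ?_⟩
    rw [he k, he l]
    exact h
  have h2 := (Finset.partiallyWellOrderedOn_bUnion (r := fun A B : Set (Fin s → ℝ) => B ⊆ A)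
    (Finset.range (d + 1)) (f := fun n => {A | ∃ (L : AddSubgroup (Fin n → ℝ)) (α : Fin n → ℝ)
      (β : Fin n → Fin s → ℝ), Adm L ∧ (∀ i, α i ∈ Γ) ∧ (∀ i j, β i j ∈ Γ) ∧
        A = germSet a L α β})).2 (fun n _ => h1 n)
  refine h2.mono ?_
  rintro A ⟨n, hn, hA⟩
  rw [Set.mem_iUnion₂]
  exact ⟨n, Finset.mem_range.2 (by omega), hA⟩

/-- Finite intersections of sets of a partially well ordered family. -/
theorem exists_inter {s : ℕ} {G : Set (Set (Fin s → ℝ))}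
    (hG : G.PartiallyWellOrderedOn (fun A B => B ⊆ A)) (F : ℕ → Set (Set (Fin s → ℝ)))
    (hF : ∀ k, (F k).Finite) (hFG : ∀ k, F k ⊆ G) :
    ∃ k l, k < l ∧ ⋂₀ F l ⊆ ⋂₀ F k := by
  have : IsPreorder (Set (Fin s → ℝ)) (fun A B => B ⊆ A) :=
    { refl := fun A => subset_rfl
      trans := fun A B C h1 h2 => h2.trans h1 }
  have h1 := Set.PartiallyWellOrderedOn.partiallyWellOrderedOn_sublistForall₂
    (fun A B : Set (Fin s → ℝ) => B ⊆ A) hG
  obtain ⟨k, l, hkl, h⟩ := h1.exists_lt (f := fun k => (hF k).toFinset.toList) (by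
    intro k x hx
    rw [Finset.mem_toList, Set.Finite.mem_toFinset] at hx
    exact hFG k hx)
  refine ⟨k, l, hkl, fun t ht A hA => ?_⟩
  rw [List.sublistForall₂_iff] at h
  obtain ⟨l', hl', hsub⟩ := h
  have hA' : A ∈ (hF k).toFinset.toList := by
    rw [Finset.mem_toList, Set.Finite.mem_toFinset]
    exact hA
  obtain ⟨i, hi, rfl⟩ := List.getElem_of_mem hA'
  have hi' : i < l'.length := by rwa [← hl'.length_eq]
  have h2 := hl'.get hi hi'
  simp only [List.get_eq_getElem] at h2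
  refine h2 (ht _ ?_)
  have h3 : l'[i] ∈ (hF l).toFinset.toList := hsub.subset (List.getElem_mem hi')
  rwa [Finset.mem_toList, Set.Finite.mem_toFinset] at h3

end Pool.Agent.R890
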