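import Mathlib

/-!
# Toric varieties, torus invariant divisors and their singularities

Normal toric varieties of dimension `d` are coded by fans in `N = ℤ^d`. A cone of the fan is coded by
the finite set of its primitive ray generators. A torus invariant `ℝ`-divisor `∑ D_ρ` with
coefficient `D ρ` along the prime divisor of the ray `ρ` is coded by the function `D`; only its
values at the rays of the fan are used.

The toric dictionary. A torus invariant `ℝ`-divisor `D` is `ℝ`-Cartier iff on each cone `σ` there is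
a linear function `m` with `m ρ = D ρ` for the rays `ρ` of `σ`. The canonical divisor is
`-∑ D_ρ`. The toric divisors over `X` are the divisors `E_w` of the primitive lattice points `w`
in the support of the fan; `E_w` is exceptional over `X` iff `w` is not a ray generator of the fan.
If `K_X + Δ` is `ℝ`-Cartier then the log discrepancy `1 + a(E_w, X, Δ)` is `m w`, where `w` lies in
the cone `σ` and `m` is linear with `m ρ = 1 - Δ ρ` for the rays `ρ` of `σ`.
-/

set_option autoImplicit false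

namespace Pool.Agent.R890

/-- An integral vector as a real vector. -/
def toR {d : ℕ} (w : Fin d → ℤ) : Fin d → ℝ := fun i => (w i : ℝ)

/-- A lattice vector is primitive if it is not an integral multiple of another lattice vector, by a
factor other than `1` and `-1`. The zero vector is not primitive. -/
def Primitive {d : ℕ} (w : Fin d → ℤ) : Prop :=
  ∀ (k : ℤ) (u : Fin d → ℤ), w = k • u → IsUnit k

/-- The convex cone generated by a finite set of lattice vectors. -/
def coneOf {d : ℕ} (σ : Finset (Fin d → ℤ)) : Set (Fin d → ℝ) :=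
  {x | ∃ μ : (Fin d → ℤ) → ℝ, (∀ ρ ∈ σ, 0 ≤ μ ρ) ∧ ∑ ρ ∈ σ, μ ρ • toR ρ = x}

/-- `σ` is the set of the primitive ray generators of a strongly convex rational polyhedral cone. -/
structure IsConeGens {d : ℕ} (σ : Finset (Fin d → ℤ)) : Prop where
  /-- the generators are primitive -/
  primitive : ∀ ρ ∈ σ, Primitive ρ
  /-- the cone is strongly convex -/
  pointed : ∀ μ : (Fin d → ℤ) → ℝ, (∀ ρ ∈ σ, 0 ≤ μ ρ) → ∑ ρ ∈ σ, μ ρ • toR ρ = 0 →
    ∀ ρ ∈ σ, μ ρ = 0
  /-- no generator is in the cone of the others -/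
  minimal : ∀ ρ ∈ σ, toR ρ ∉ coneOf (σ.erase ρ)

/-- `τ` is the set of the ray generators of a face of the cone with ray generators `σ`. -/
def IsFace {d : ℕ} (τ σ : Finset (Fin d → ℤ)) : Prop :=
  ∃ m : (Fin d → ℝ) →ₗ[ℝ] ℝ, (∀ ρ ∈ σ, 0 ≤ m (toR ρ)) ∧ ∀ ρ, ρ ∈ τ ↔ ρ ∈ σ ∧ m (toR ρ) = 0

/-- A fan in `ℤ^d`. -/
structure Fan (d : ℕ) where
  /-- the cones, each given by its primitive ray generators -/
  cones : Finset (Finset (Fin d → ℤ))
  /-- there is a cone -/
  nonempty : cones.Nonempty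
  /-- the cones are strongly convex rational polyhedral cones -/
  gens : ∀ σ ∈ cones, IsConeGens σ
  /-- the faces of the cones are in the fan -/
  faces : ∀ σ ∈ cones, ∀ τ, IsFace τ σ → τ ∈ cones
  /-- the intersection of two cones is a face of both -/
  inter : ∀ σ ∈ cones, ∀ σ' ∈ cones, ∃ τ, IsFace τ σ ∧ IsFace τ σ' ∧
    coneOf σ ∩ coneOf σ' = coneOf τ

namespace Fan

variable {d : ℕ} (F : Fan d)

/-- The ray generators of the fan; they correspond to the torus invariant prime divisors. -/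
def rays : Set (Fin d → ℤ) := {ρ | ∃ σ ∈ F.cones, ρ ∈ σ}

/-- The support of the fan. -/
def support : Set (Fin d → ℝ) := {x | ∃ σ ∈ F.cones, x ∈ coneOf σ}

/-- The torus invariant divisor `D` is `ℝ`-Cartier. -/
def IsRCartier (D : (Fin d → ℤ) → ℝ) : Prop :=
  ∀ σ ∈ F.cones, ∃ m : (Fin d → ℝ) →ₗ[ℝ] ℝ, ∀ ρ ∈ σ, m (toR ρ) = D ρ

/-- `(X, Δ)` is a pair: `Δ` is effective and `K_X + Δ` is `ℝ`-Cartier. -/
def IsPair (Δ : (Fin d → ℤ) → ℝ) : Prop :=
  (∀ ρ ∈ F.rays, 0 ≤ Δ ρ) ∧ F.IsRCartier fun ρ => 1 - Δ ρ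

/-- The toric pair `(X, Δ)` is canonical: each toric exceptional divisor `E_w` has log discrepancy at
least `1`, and, if the dimension is at least two, the coefficients of `Δ` are at most `1` (that is,
the blow-ups of the general codimension two centres in the components of `Δ` have discrepancy at
least `0`). For a toric pair this is equivalent to `a(E, X, Δ) ≥ 0` for every exceptional prime
divisor `E` over `X`. -/
def IsCanonical (Δ : (Fin d → ℤ) → ℝ) : Prop :=
  (2 ≤ d → ∀ ρ ∈ F.rays, Δ ρ ≤ 1) ∧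
    ∀ σ ∈ F.cones, ∀ m : (Fin d → ℝ) →ₗ[ℝ] ℝ, (∀ ρ ∈ σ, m (toR ρ) = 1 - Δ ρ) →
      ∀ w : Fin d → ℤ, Primitive w → toR w ∈ coneOf σ → w ∉ F.rays → 1 ≤ m (toR w)

end Fan

/-- `Γ` satisfies the descending chain condition: it contains no infinite strictly decreasing
sequence. -/
def IsDCC (Γ : Set ℝ) : Prop := ¬ ∃ f : ℕ → ℝ, StrictAnti f ∧ ∀ n, f n ∈ Γ

/-- A toric tuple `(X, Δ; D_1, …, D_s)`: a toric canonical pair `(X, Δ)` of dimension `d` and torus
invariant `ℝ`-Cartier divisors `D_j`, all effective with coefficients in `Γ` (a prime divisor that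
is not a component has coefficient `0`). -/
structure CanTuple (d s : ℕ) (Γ : Set ℝ) where
  /-- the toric variety -/
  fan : Fan d
  /-- the boundary -/
  Δ : (Fin d → ℤ) → ℝ
  /-- the divisors -/
  D : Fin s → (Fin d → ℤ) → ℝ
  /-- `(X, Δ)` is a pair -/
  pair : fan.IsPair Δ
  /-- `(X, Δ)` is canonical -/
  canonical : fan.IsCanonical Δ
  /-- the divisors are `ℝ`-Cartier -/
  cartier : ∀ j, fan.IsRCartier (D j)
  /-- the coefficients of `Δ` are in `Γ` -/
  Δ_mem : ∀ ρ ∈ fan.rays, Δ ρ ∈ Γ ∪ {0}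
  /-- the coefficients of the divisors are in `Γ` -/
  D_mem : ∀ j, ∀ ρ ∈ fan.rays, D j ρ ∈ Γ ∪ {0}

/-- The canonical threshold polytope `P(X, Δ; D_1, …, D_s)`. -/
def CanTuple.polytope {d s : ℕ} {Γ : Set ℝ} (T : CanTuple d s Γ) : Set (Fin s → ℝ) :=
  {t | (∀ j, 0 ≤ t j) ∧ T.fan.IsCanonical fun ρ => T.Δ ρ + ∑ j, t j * T.D j ρ}

end Pool.Agent.R890
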