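import Mathlib
import Pool.Agent.R890.Germ
import Pool.Agent.R890.ToricDefs

/-!
# Carathéodory's theorem for cones, and the lattice of a simplicial cone
-/

set_option autoImplicit false

namespace Pool.Agent.R890

/-- Carathéodory's theorem for cones: a nonnegative combination can be replaced by a positive
combination of a linearly independent subfamily, without increasing a nonnegative cost. -/
theorem exists_indep {V ι : Type} [AddCommGroup V] [Module ℝ V] [DecidableEq ι] (ρ : ι → V)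
    (c : ι → ℝ) : ∀ (N : ℕ) (σ : Finset ι), σ.card = N → (∀ i ∈ σ, 0 ≤ c i) →
      ∀ μ : ι → ℝ, (∀ i ∈ σ, 0 ≤ μ i) → ∃ τ ⊆ σ, LinearIndepOn ℝ ρ (τ : Set ι) ∧
        ∃ μ' : ι → ℝ, (∀ i ∈ τ, 0 < μ' i) ∧ ∑ i ∈ τ, μ' i • ρ i = ∑ i ∈ σ, μ i • ρ i ∧
          ∑ i ∈ τ, μ' i * c i ≤ ∑ i ∈ σ, μ i * c i := by
  intro N
  induction N with
  | zero =>
    intro σ hσ _ μ _
    rw [Finset.card_eq_zero] at hσ
    subst hσ
    refine ⟨∅, subset_rfl, ?_, μ, ?_, rfl, le_rfl⟩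
    · rw [Finset.coe_empty]
      exact linearIndepOn_empty ℝ ρ
    · intro i hi
      exact absurd hi (Finset.notMem_empty i)
  | succ N ih =>
    intro σ hσ hc μ hμ
    -- it suffices to treat a combination with a zero coefficient
    have hred : ∀ μ₁ : ι → ℝ, (∀ i ∈ σ, 0 ≤ μ₁ i) → (∃ i ∈ σ, μ₁ i = 0) →
        ∑ i ∈ σ, μ₁ i • ρ i = ∑ i ∈ σ, μ i • ρ i → ∑ i ∈ σ, μ₁ i * c i ≤ ∑ i ∈ σ, μ i * c i →
        ∃ τ ⊆ σ, LinearIndepOn ℝ ρ (τ : Set ι) ∧ ∃ μ' : ι → ℝ, (∀ i ∈ τ, 0 < μ' i) ∧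
          ∑ i ∈ τ, μ' i • ρ i = ∑ i ∈ σ, μ i • ρ i ∧
          ∑ i ∈ τ, μ' i * c i ≤ ∑ i ∈ σ, μ i * c i := by
      rintro μ₁ h0 ⟨i, hi, hi0⟩ h1 h2
      obtain ⟨τ, hτ, hli, μ', h3, h4, h5⟩ := ih (σ.erase i) (by
        rw [Finset.card_erase_of_mem hi, hσ]
        rfl) (fun j hj => hc j (Finset.mem_of_mem_erase hj)) μ₁
        (fun j hj => h0 j (Finset.mem_of_mem_erase hj))
      refine ⟨τ, hτ.trans (Finset.erase_subset _ _), hli, μ', h3, ?_, ?_⟩
      · rw [h4, ← h1, ← Finset.add_sum_erase σ _ hi, hi0, zero_smul, zero_add]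
      · refine h5.trans ?_
        rw [← Finset.add_sum_erase σ (fun i => μ₁ i * c i) hi, hi0, zero_mul, zero_add] at h2
        exact h2
    by_cases hz : ∃ i ∈ σ, μ i = 0
    · exact hred μ hμ hz rfl le_rfl
    push Not at hz
    have hpos : ∀ i ∈ σ, 0 < μ i := fun i hi => lt_of_le_of_ne (hμ i hi) (hz i hi).symm
    by_cases hli : LinearIndepOn ℝ ρ (σ : Set ι)
    · exact ⟨σ, subset_rfl, hli, μ, hpos, rfl, le_rfl⟩
    rw [linearIndepOn_finset_iff] at hli
    push Not at hli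
    obtain ⟨g, hg, i₀, hi₀, hgi₀⟩ := hli
    -- a relation with nonnegative cost and with a positive coefficient
    have hg' : ∃ g : ι → ℝ, ∑ i ∈ σ, g i • ρ i = 0 ∧ 0 ≤ ∑ i ∈ σ, g i * c i ∧
        ∃ i ∈ σ, 0 < g i := by
      have hneg : ∑ i ∈ σ, (-g i) • ρ i = 0 := by
        simp only [neg_smul, Finset.sum_neg_distrib, hg, neg_zero]
      have hneg' : ∑ i ∈ σ, (-g i) * c i = -∑ i ∈ σ, g i * c i := by
        simp only [neg_mul, Finset.sum_neg_distrib]
      rcases lt_trichotomy (∑ i ∈ σ, g i * c i) 0 with h | h | h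
      · refine ⟨fun i => -g i, hneg, by rw [hneg']; linarith, ?_⟩
        by_contra hcon
        push Not at hcon
        have : 0 ≤ ∑ i ∈ σ, g i * c i := Finset.sum_nonneg fun i hi =>
          mul_nonneg (by have := hcon i hi; linarith) (hc i hi)
        linarith
      · rcases lt_or_gt_of_ne hgi₀ with h1 | h1
        · exact ⟨fun i => -g i, hneg, by rw [hneg']; linarith, i₀, hi₀, by linarith⟩
        · exact ⟨g, hg, h.ge, i₀, hi₀, h1⟩
      · refine ⟨g, hg, h.le, ?_⟩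
        by_contra hcon
        push Not at hcon
        have : ∑ i ∈ σ, g i * c i ≤ 0 := Finset.sum_nonpos fun i hi =>
          mul_nonpos_of_nonpos_of_nonneg (hcon i hi) (hc i hi)
        linarith
    obtain ⟨g, hg, hgc, i₁, hi₁, hgi₁⟩ := hg'
    -- the largest step
    have hne : (σ.filter fun i => 0 < g i).Nonempty :=
      ⟨i₁, Finset.mem_filter.2 ⟨hi₁, hgi₁⟩⟩
    obtain ⟨i₂, hi₂, hmin⟩ := Finset.exists_min_image (σ.filter fun i => 0 < g i)
      (fun i => μ i / g i) hne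
    rw [Finset.mem_filter] at hi₂
    have hθ : 0 ≤ μ i₂ / g i₂ := div_nonneg (hμ _ hi₂.1) hi₂.2.le
    refine hred (fun i => μ i - μ i₂ / g i₂ * g i) (fun i hi => ?_) ⟨i₂, hi₂.1, ?_⟩ ?_ ?_
    · rcases le_or_gt (g i) 0 with h | h
      · have := mul_nonneg hθ (neg_nonneg.2 h)
        have := hμ i hi
        linarith
      · have h1 := hmin i (Finset.mem_filter.2 ⟨hi, h⟩)
        rw [le_div_iff₀ h] at h1
        linarith
    · rw [div_mul_cancel₀ _ hi₂.2.ne', sub_self]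
    · simp only [sub_smul, mul_smul, Finset.sum_sub_distrib, ← Finset.smul_sum, hg, smul_zero,
        sub_zero]
    · simp only [sub_mul, mul_assoc, Finset.sum_sub_distrib, ← Finset.mul_sum]
      have := mul_nonneg hθ hgc
      linarith

theorem toR_injective {d : ℕ} : Function.Injective (toR (d := d)) := by
  intro a b h
  funext i
  have h1 : (a i : ℝ) = (b i : ℝ) := congrFun h i
  exact_mod_cast h1

theorem toR_zero {d : ℕ} : toR (0 : Fin d → ℤ) = 0 := by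
  funext i
  simp [toR]

theorem toR_add {d : ℕ} (a b : Fin d → ℤ) : toR (a + b) = toR a + toR b := by
  funext i
  simp [toR]

theorem toR_neg {d : ℕ} (a : Fin d → ℤ) : toR (-a) = -toR a := by
  funext i
  simp [toR]

theorem toR_smul {d : ℕ} (k : ℤ) (a : Fin d → ℤ) : toR (k • a) = (k : ℝ) • toR a := by
  funext i
  simp [toR]

/-- The coordinate vectors of the lattice points with respect to the given integral vectors. -/
def coordGrp {n d : ℕ} (τ : Fin n → Fin d → ℤ) : AddSubgroup (Fin n → ℝ) where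
  carrier := {v | ∃ w : Fin d → ℤ, ∑ i, v i • toR (τ i) = toR w}
  add_mem' := by
    rintro a b ⟨w, hw⟩ ⟨u, hu⟩
    refine ⟨w + u, ?_⟩
    simp only [Pi.add_apply, add_smul, Finset.sum_add_distrib, hw, hu, toR_add]
  zero_mem' := ⟨0, by simp [toR_zero]⟩
  neg_mem' := by
    rintro a ⟨w, hw⟩
    refine ⟨-w, ?_⟩
    simp only [Pi.neg_apply, neg_smul, Finset.sum_neg_distrib, hw, toR_neg]

theorem mem_coordGrp {n d : ℕ} {τ : Fin n → Fin d → ℤ} {v : Fin n → ℝ} :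
    v ∈ coordGrp τ ↔ ∃ w : Fin d → ℤ, ∑ i, v i • toR (τ i) = toR w := Iff.rfl

theorem adm_coordGrp {n d : ℕ} {τ : Fin n → Fin d → ℤ}
    (hτ : LinearIndependent ℝ fun i => toR (τ i)) : Adm (coordGrp τ) := by
  constructor
  · intro z
    refine ⟨∑ i, z i • τ i, ?_⟩
    funext j
    simp only [Finset.sum_apply, Pi.smul_apply, smul_eq_mul, toR]
    push_cast
    rfl
  · set M : Fin d → ℤ := fun j => ∑ i, |τ i j| with hM
    have hfin : (toR '' Set.Icc (-M) M).Finite := (Set.finite_Icc _ _).image _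
    refine Set.Finite.of_finite_image (f := fun v : Fin n → ℝ => ∑ i, v i • toR (τ i))
      (hfin.subset ?_) ?_
    · rintro _ ⟨v, ⟨⟨w, hw⟩, hv⟩, rfl⟩
      refine ⟨w, ?_, hw.symm⟩
      have hb : ∀ j, |w j| ≤ M j := by
        intro j
        have h1 : (w j : ℝ) = ∑ i, v i * (τ i j : ℝ) := by
          have := congrFun hw j
          simp only [Finset.sum_apply, Pi.smul_apply, smul_eq_mul, toR] at this
          exact this.symm
        have h2 : |(w j : ℝ)| ≤ ∑ i, |(τ i j : ℝ)| := by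
          rw [h1]
          refine (Finset.abs_sum_le_sum_abs _ _).trans (Finset.sum_le_sum fun i _ => ?_)
          rw [abs_mul, abs_of_nonneg (hv i).1]
          exact mul_le_of_le_one_left (abs_nonneg _) (hv i).2
        have h3 : ((|w j| : ℤ) : ℝ) ≤ ((M j : ℤ) : ℝ) := by
          rw [hM]
          push_cast
          exact h2
        exact_mod_cast h3
      exact ⟨fun j => (abs_le.1 (hb j)).1, fun j => (abs_le.1 (hb j)).2⟩
    · intro a _ b _ hab
      simp only at hab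
      have h1 : ∑ i, (a i - b i) • toR (τ i) = 0 := by
        simp only [sub_smul, Finset.sum_sub_distrib, hab, sub_self]
      funext i
      have := Fintype.linearIndependent_iff.1 hτ _ h1 i
      linarith

/-- The germ set of a linearly independent set of integral vectors, with constant `a` and with
coefficients `α` and `β`. -/
def coneSet {d s : ℕ} (a : ℝ) (τ : Finset (Fin d → ℤ)) (α : (Fin d → ℤ) → ℝ)
    (β : Fin s → (Fin d → ℤ) → ℝ) : Set (Fin s → ℝ) :=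
  {t | (∀ j, 0 ≤ t j) ∧ ∀ (μ : (Fin d → ℤ) → ℝ) (w : Fin d → ℤ), (∀ ρ ∈ τ, 0 < μ ρ) →
    ∑ ρ ∈ τ, μ ρ • toR ρ = toR w → a ≤ ∑ ρ ∈ τ, μ ρ * (1 - α ρ - ∑ j, t j * β j ρ)}

theorem coneSet_mem {d s : ℕ} {a : ℝ} {Γ : Set ℝ} {τ : Finset (Fin d → ℤ)}
    (hτ : LinearIndepOn ℝ toR (τ : Set (Fin d → ℤ))) {α : (Fin d → ℤ) → ℝ}
    {β : Fin s → (Fin d → ℤ) → ℝ} (hα : ∀ ρ ∈ τ, α ρ ∈ Γ) (hβ : ∀ j, ∀ ρ ∈ τ, β j ρ ∈ Γ) :
    coneSet a τ α β ∈ Germs d s a Γ := by
  classical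
  let e : Fin τ.card ≃ τ := (τ.equivFin).symm
  have hli : LinearIndependent ℝ fun i => toR (e i : Fin d → ℤ) := by
    have h1 : LinearIndependent ℝ fun i : τ => toR (i : Fin d → ℤ) := hτ
    exact h1.comp e e.injective
  have hcard : τ.card ≤ d := by
    have h1 := hli.fintype_card_le_finrank
    simpa using h1
  have hsum : ∀ {M : Type} [AddCommMonoid M] (f : (Fin d → ℤ) → M),
      ∑ i, f (e i : Fin d → ℤ) = ∑ ρ ∈ τ, f ρ := by
    intro M _ f
    rw [← Finset.sum_coe_sort τ f]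
    exact e.sum_comp (fun x : τ => f x)
  refine ⟨τ.card, hcard, coordGrp fun i => (e i : Fin d → ℤ), fun i => α (e i),
    fun i j => β j (e i), adm_coordGrp hli, fun i => hα _ (e i).2, fun i j => hβ j _ (e i).2, ?_⟩
  ext t
  refine and_congr_right fun _ => ⟨fun h v hv hpos => ?_, fun h μ w hμ hw => ?_⟩
  · obtain ⟨w, hw⟩ := hv
    set μ : (Fin d → ℤ) → ℝ := fun ρ => if hρ : ρ ∈ τ then v (e.symm ⟨ρ, hρ⟩) else 0 with hμ
    have hμe : ∀ i, μ (e i) = v i := by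
      intro i
      rw [hμ]
      simp only [(e i).2, dite_true]
      congr 1
      exact e.symm_apply_apply i
    have h1 := h μ w (by
      intro ρ hρ
      have h2 := hμe (e.symm ⟨ρ, hρ⟩)
      rw [e.apply_symm_apply] at h2
      rw [h2]
      exact hpos _) (by
      rw [← hsum (fun ρ => μ ρ • toR ρ), ← hw]
      exact Finset.sum_congr rfl fun i _ => by rw [hμe])
    rw [← hsum (fun ρ => μ ρ * (1 - α ρ - ∑ j, t j * β j ρ))] at h1
    simp only [hμe] at h1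
    exact h1
  · have h1 := h (fun i => μ (e i)) ⟨w, by rw [hsum (fun ρ => μ ρ • toR ρ), hw]⟩
      (fun i => hμ _ (e i).2)
    rwa [hsum (fun ρ => μ ρ * (1 - α ρ - ∑ j, t j * β j ρ))] at h1

/-- The half-space of a divisor. -/
def raySet {d s : ℕ} (a : ℝ) (ρ : Fin d → ℤ) (α : (Fin d → ℤ) → ℝ)
    (β : Fin s → (Fin d → ℤ) → ℝ) : Set (Fin s → ℝ) :=
  {t | (∀ j, 0 ≤ t j) ∧ a ≤ 1 - α ρ - ∑ j, t j * β j ρ}

/-- The integral points of the line. -/
def intGrp : AddSubgroup (Fin 1 → ℝ) where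
  carrier := {v | ∃ w : ℤ, v 0 = w}
  add_mem' := by
    rintro a b ⟨w, hw⟩ ⟨u, hu⟩
    exact ⟨w + u, by rw [Pi.add_apply, hw, hu]; push_cast; rfl⟩
  zero_mem' := ⟨0, by simp⟩
  neg_mem' := by
    rintro a ⟨w, hw⟩
    exact ⟨-w, by rw [Pi.neg_apply, hw]; push_cast; rfl⟩

theorem adm_intGrp : Adm intGrp := by
  constructor
  · intro z
    exact ⟨z 0, rfl⟩
  · refine ((Set.finite_Icc (0 : ℤ) 1).image
      (fun (w : ℤ) => ((fun _ => (w : ℝ)) : Fin 1 → ℝ))).subset ?_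
    rintro v ⟨⟨w, hw⟩, hv⟩
    refine ⟨w, ?_, ?_⟩
    · have h1 := hv 0
      rw [hw] at h1
      exact ⟨by exact_mod_cast h1.1, by exact_mod_cast h1.2⟩
    · funext i
      rw [Subsingleton.elim i 0, hw]

theorem raySet_mem {d s : ℕ} {a : ℝ} (ha : 0 ≤ a) {Γ : Set ℝ} {ρ : Fin d → ℤ}
    {α : (Fin d → ℤ) → ℝ} {β : Fin s → (Fin d → ℤ) → ℝ} (hα : α ρ ∈ Γ) (hβ : ∀ j, β j ρ ∈ Γ) :
    raySet a ρ α β ∈ Germs 1 s a Γ := by
  refine ⟨1, le_rfl, intGrp, fun _ => α ρ, fun _ j => β j ρ, adm_intGrp, fun _ => hα,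
    fun _ j => hβ j, ?_⟩
  ext t
  refine and_congr_right fun _ => ⟨fun h v hv hpos => ?_, fun h => ?_⟩
  · obtain ⟨w, hw⟩ := hv
    rw [Fin.sum_univ_one]
    have h1 := hpos 0
    have h2 : (1 : ℝ) ≤ v 0 := by
      rw [hw] at h1 ⊢
      have : (0 : ℤ) < w := by exact_mod_cast h1
      exact_mod_cast this
    nlinarith
  · have h1 := h (fun _ => 1) ⟨1, by simp⟩ (fun _ => one_pos)
    rw [Fin.sum_univ_one, one_mul] at h1
    exact h1

theorem orthant_mem {s : ℕ} {a : ℝ} (ha : a ≤ 0) {Γ : Set ℝ} :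
    {t : Fin s → ℝ | ∀ j, 0 ≤ t j} ∈ Germs 0 s a Γ := by
  refine ⟨0, le_rfl, ⊤, fun i => i.elim0, fun i => i.elim0, ⟨fun _ => trivial, ?_⟩,
    fun i => i.elim0, fun i => i.elim0, ?_⟩
  · exact Set.toFinite _
  · ext t
    refine ⟨fun h => ⟨h, fun v _ _ => ?_⟩, fun h => h.1⟩
    rw [Finset.univ_eq_empty, Finset.sum_empty]
    exact ha

theorem Germs_mono {d d' s : ℕ} (h : d ≤ d') {a : ℝ} {Γ : Set ℝ} :
    Germs d s a Γ ⊆ Germs d' s a Γ := by
  rintro A ⟨n, hn, hA⟩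
  exact ⟨n, hn.trans h, hA⟩

end Pool.Agent.R890
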