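import Mathlib
import Pool.Agent.R890.ToricDefs

/-!
# Toric contractions and complementary thresholds

A toric contraction `X → Z` to an affine toric variety `Z`, and a point `z` of the closed orbit of
`Z`, are coded by the fan of `X`, whose support is a convex cone; the toric divisors over the
neighbourhoods of `z` are the divisors `E_w` with `w` primitive in the support of the fan.

Let `B ≥ 0` be torus invariant with `K_X + B` `ℝ`-Cartier. The effective divisors
`G ∼_ℝ -(K_X + B)` given by monomials correspond to the linear functions `m` with `m ρ ≤ 1 - B ρ` for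
all rays `ρ`, and then the log discrepancy of `E_w` with respect to `(X, B + G)` is `m w`. For the
general `G ∼_ℝ -(K_X + B)` it is the maximum of `m w` over all these `m`, which is the largest
possible value.
-/

set_option autoImplicit false

namespace Pool.Agent.R890

/-- The toric pair `(X/Z ∋ z, B)` is `(ε, ℝ)`-complementary, for `0 ≤ ε < 1`: for the general
effective `G ∼_ℝ -(K_X + B)` each toric divisor `E_w` has log discrepancy at least `ε` with respect
to `(X, B + G)`. -/
def Fan.IsComplementary {d : ℕ} (F : Fan d) (ε : ℝ) (B : (Fin d → ℤ) → ℝ) : Prop :=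
  ∀ w : Fin d → ℤ, Primitive w → toR w ∈ F.support →
    ∃ m : (Fin d → ℝ) →ₗ[ℝ] ℝ, (∀ ρ ∈ F.rays, m (toR ρ) ≤ 1 - B ρ) ∧ ε ≤ m (toR w)

/-- A toric `(ε, ℝ)`-complementary pair `(X/Z ∋ z, B)` with a torus invariant effective `ℝ`-Cartier
divisor `M`, such that `B` has coefficients in `Γ₁` and `M` has coefficients in `Γ₂`. -/
structure CompTuple (d : ℕ) (ε : ℝ) (Γ₁ Γ₂ : Set ℝ) where
  /-- the toric variety `X` -/
  fan : Fan d
  /-- it has a toric contraction to an affine toric variety -/
  convex : Convex ℝ fan.support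
  /-- the boundary -/
  B : (Fin d → ℤ) → ℝ
  /-- the divisor -/
  M : (Fin d → ℤ) → ℝ
  /-- `B` is effective and `K_X + B` is `ℝ`-Cartier -/
  pair : fan.IsPair B
  /-- `(X/Z ∋ z, B)` is complementary -/
  complementary : fan.IsComplementary ε B
  /-- `M` is effective -/
  effective : ∀ ρ ∈ fan.rays, 0 ≤ M ρ
  /-- `M` is `ℝ`-Cartier -/
  cartier : fan.IsRCartier M
  /-- the coefficients of `B` are in `Γ₁` -/
  B_mem : ∀ ρ ∈ fan.rays, B ρ ∈ Γ₁ ∪ {0}
  /-- the coefficients of `M` are in `Γ₂` -/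
  M_mem : ∀ ρ ∈ fan.rays, M ρ ∈ Γ₂ ∪ {0}

/-- The `t ≥ 0` such that `(X/Z ∋ z, B + tM)` is `(ε, ℝ)`-complementary. -/
def CompTuple.good {d : ℕ} {ε : ℝ} {Γ₁ Γ₂ : Set ℝ} (T : CompTuple d ε Γ₁ Γ₂) : Set ℝ :=
  {t | 0 ≤ t ∧ T.fan.IsComplementary ε fun ρ => T.B ρ + t * T.M ρ}

/-- The `(ε, ℝ)`-complementary threshold, a number in `[0, ∞]`. -/
noncomputable def CompTuple.threshold {d : ℕ} {ε : ℝ} {Γ₁ Γ₂ : Set ℝ}
    (T : CompTuple d ε Γ₁ Γ₂) : EReal := sSup ((fun t : ℝ => (t : EReal)) '' T.good)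

end Pool.Agent.R890
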