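import Mathlib
import Pool.Agent.R890.Carath

/-!
# Canonical threshold polytopes of toric tuples are well quasi ordered
-/

set_option autoImplicit false

namespace Pool.Agent.R890

variable {d : ℕ}

theorem Primitive.ne_zero {w : Fin d → ℤ} (hw : Primitive w) : w ≠ 0 := by
  rintro rfl
  have := hw 0 0 (by simp)
  exact not_isUnit_zero this

/-- Each nonzero lattice vector is a positive multiple of a primitive one. -/
theorem exists_primitive {w : Fin d → ℤ} (hw : w ≠ 0) :
    ∃ (k : ℤ) (u : Fin d → ℤ), 0 < k ∧ Primitive u ∧ w = k • u := by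
  obtain ⟨i, hi⟩ : ∃ i, w i ≠ 0 := by
    by_contra hcon
    push Not at hcon
    exact hw (funext hcon)
  obtain ⟨g, hg, hg1⟩ := Finset.extract_gcd w (s := Finset.univ) ⟨i, Finset.mem_univ i⟩
  have hk : 0 < Finset.univ.gcd w := by
    refine lt_of_le_of_ne ?_ ?_
    · have : normalize (Finset.univ.gcd w) = Finset.univ.gcd w := Finset.normalize_gcd
      rw [← this]
      exact Int.nonneg_of_normalize_eq_self (normalize_idem _)
    · intro h
      rw [eq_comm, Finset.gcd_eq_zero_iff] at h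
      exact hi (h i (Finset.mem_univ i))
  refine ⟨Finset.univ.gcd w, g, hk, ?_, ?_⟩
  · intro k u hku
    have h1 : k ∣ Finset.univ.gcd g := Finset.dvd_gcd fun j _ => ⟨u j, by rw [hku]; rfl⟩
    rw [hg1] at h1
    exact isUnit_of_dvd_one h1
  · funext j
    exact hg j (Finset.mem_univ j)

/-- A primitive vector that is a positive multiple of a primitive vector is equal to it. -/
theorem Primitive.eq_of_smul {u w : Fin d → ℤ} (hu : Primitive u) (hw : Primitive w) {μ : ℝ}
    (hμ : 0 < μ) (h : toR w = μ • toR u) : w = u := by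
  obtain ⟨i, hi⟩ : ∃ i, u i ≠ 0 := by
    by_contra hcon
    push Not at hcon
    exact hu.ne_zero (funext hcon)
  have hi' : (u i : ℝ) ≠ 0 := by exact_mod_cast hi
  set q : ℚ := (w i : ℚ) / (u i : ℚ) with hq
  have hμq : μ = (q : ℝ) := by
    have h1 := congrFun h i
    simp only [toR, Pi.smul_apply, smul_eq_mul] at h1
    rw [hq]
    push_cast
    rw [h1, mul_div_cancel_right₀ _ hi']
  have hq0 : 0 < q := by
    rw [hμq] at hμ
    exact_mod_cast hμ
  have hrel : ∀ j, (q.den : ℤ) * w j = q.num * u j := by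
    intro j
    have h1 := congrFun h j
    simp only [toR, Pi.smul_apply, smul_eq_mul] at h1
    rw [hμq] at h1
    have h2 : (q.den : ℚ) * q = q.num := by
      rw [mul_comm]
      exact Rat.mul_den_eq_num q
    have h3 : ((q.den : ℤ) : ℝ) * (w j : ℝ) = (q.num : ℝ) * (u j : ℝ) := by
      rw [h1, ← mul_assoc]
      congr 1
      have : (((q.den : ℚ) * q : ℚ) : ℝ) = ((q.num : ℚ) : ℝ) := by rw [h2]
      push_cast at this
      push_cast
      exact this
    exact_mod_cast h3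
  have hcop : IsCoprime q.num (q.den : ℤ) := by
    rw [Int.isCoprime_iff_gcd_eq_one]
    have := q.reduced
    rw [Nat.Coprime] at this
    rw [Int.gcd]
    simpa using this
  have hden : (q.den : ℤ) = 1 := by
    have h1 : ∀ j, (q.den : ℤ) ∣ u j := fun j =>
      hcop.symm.dvd_of_dvd_mul_left ⟨w j, (hrel j).symm⟩
    choose v hv using h1
    have h2 := hu _ v (funext fun j => hv j)
    rw [Int.isUnit_iff] at h2
    have h3 : (0 : ℤ) ≤ q.den := Int.natCast_nonneg _
    rcases h2 with h2 | h2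
    · exact h2
    · omega
  have hnum : q.num = 1 := by
    have h1 : ∀ j, q.num ∣ w j := fun j =>
      hcop.dvd_of_dvd_mul_left ⟨u j, (hrel j)⟩
    choose v hv using h1
    have h2 := hw _ v (funext fun j => hv j)
    rw [Int.isUnit_iff] at h2
    have h3 : 0 < q.num := Rat.num_pos.2 hq0
    rcases h2 with h2 | h2
    · exact h2
    · omega
  funext j
  have := hrel j
  rw [hden, hnum, one_mul, one_mul] at this
  exact this

theorem coneOf_mono {σ τ : Finset (Fin d → ℤ)} (h : τ ⊆ σ) : coneOf τ ⊆ coneOf σ := by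
  classical
  rintro x ⟨μ, hμ, rfl⟩
  refine ⟨fun ρ => if ρ ∈ τ then μ ρ else 0, fun ρ _ => ?_, ?_⟩
  · by_cases hρ : ρ ∈ τ
    · simp only [hρ, if_true]
      exact hμ ρ hρ
    · simp only [hρ, if_false]
      exact le_rfl
  · simp only [ite_smul, zero_smul]
    rw [Finset.sum_ite_mem, Finset.inter_eq_right.2 h]

/-- The primitive vector of a point in the relative interior of a cone of dimension at least two is
not a ray generator of the fan. -/
theorem Fan.notMem_rays (F : Fan d) {σ τ : Finset (Fin d → ℤ)} (hσ : σ ∈ F.cones) (hτ : τ ⊆ σ)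
    (hcard : 2 ≤ τ.card) {μ : (Fin d → ℤ) → ℝ} (hμ : ∀ ρ ∈ τ, 0 < μ ρ) {u : Fin d → ℤ} {k : ℝ}
    (hk : 0 < k) (h : ∑ ρ ∈ τ, μ ρ • toR ρ = k • toR u) : u ∉ F.rays := by
  classical
  rintro ⟨σ', hσ', hu⟩
  have hmem : toR u ∈ coneOf σ := by
    refine coneOf_mono hτ ⟨fun ρ => k⁻¹ * μ ρ, fun ρ hρ => ?_, ?_⟩
    · have := hμ ρ hρ
      positivity
    · simp only [mul_smul]
      rw [← Finset.smul_sum, h, smul_smul, inv_mul_cancel₀ hk.ne', one_smul]
  have hmem' : toR u ∈ coneOf σ' := by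
    refine ⟨fun ρ => if ρ = u then 1 else 0, fun ρ _ => ?_, ?_⟩
    · by_cases hρ : ρ = u
      · simp only [hρ, if_true]
        exact zero_le_one
      · simp only [hρ, if_false]
        exact le_rfl
    · simp only [ite_smul, one_smul, zero_smul]
      rw [Finset.sum_ite_eq' σ' u, if_pos hu]
  obtain ⟨τ₀, ⟨m, hm, hτ₀⟩, ⟨m', hm', hτ₀'⟩, hint⟩ := F.inter σ hσ σ' hσ'
  have h1 : toR u ∈ coneOf τ₀ := by
    rw [← hint]
    exact ⟨hmem, hmem'⟩
  have h2 : u ∈ σ := by
    by_contra hcon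
    have h3 : u ∉ τ₀ := fun h3 => hcon ((hτ₀ u).1 h3).1
    have h4 : τ₀ ⊆ σ'.erase u := by
      intro ρ hρ
      rw [Finset.mem_erase]
      exact ⟨fun h => h3 (h ▸ hρ), ((hτ₀' ρ).1 hρ).1⟩
    exact (F.gens σ' hσ').minimal u hu (coneOf_mono h4 h1)
  -- `u` is an extremal ray of `σ`
  obtain ⟨ρ₁, hρ₁, hne⟩ : ∃ ρ₁ ∈ τ, ρ₁ ≠ u := by
    by_contra hcon
    push Not at hcon
    have : τ ⊆ {u} := fun ρ hρ => Finset.mem_singleton.2 (hcon ρ hρ)
    have := Finset.card_le_card this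
    rw [Finset.card_singleton] at this
    omega
  set a : ℝ := if u ∈ τ then μ u else 0 with ha
  have hsplit : ∑ ρ ∈ τ.erase u, μ ρ • toR ρ = (k - a) • toR u := by
    by_cases hut : u ∈ τ
    · rw [ha, if_pos hut, sub_smul, ← h, ← Finset.add_sum_erase τ _ hut, add_sub_cancel_left]
    · rw [ha, if_neg hut, sub_zero, ← h, Finset.erase_eq_of_notMem hut]
  rcases lt_or_ge 0 (k - a) with hpos | hneg
  · refine (F.gens σ hσ).minimal u h2 (coneOf_mono (Finset.erase_subset_erase u hτ)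
      ⟨fun ρ => (k - a)⁻¹ * μ ρ, fun ρ hρ => ?_, ?_⟩)
    · have := hμ ρ (Finset.mem_of_mem_erase hρ)
      positivity
    · simp only [mul_smul]
      rw [← Finset.smul_sum, hsplit, smul_smul, inv_mul_cancel₀ hpos.ne', one_smul]
  · have h5 := (F.gens σ hσ).pointed
      (fun ρ => (if ρ ∈ τ.erase u then μ ρ else 0) + (if ρ = u then a - k else 0))
      (fun ρ _ => by
        refine add_nonneg ?_ ?_
        · split_ifs with h6
          · exact (hμ ρ (Finset.mem_of_mem_erase h6)).le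
          · exact le_rfl
        · split_ifs with h6
          · linarith
          · exact le_rfl) (by
        simp only [add_smul, ite_smul, zero_smul, Finset.sum_add_distrib]
        rw [Finset.sum_ite_mem, Finset.inter_eq_right.2
          ((Finset.erase_subset u τ).trans hτ), Finset.sum_ite_eq' σ u, if_pos h2, hsplit,
          ← add_smul]
        rw [show k - a + (a - k) = 0 by ring, zero_smul]) ρ₁ (hτ hρ₁)
    simp only [Finset.mem_erase, hne, ne_eq, not_false_eq_true, hρ₁, and_self, if_true, if_false,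
      add_zero] at h5
    exact (hμ ρ₁ hρ₁).ne' h5

section Polytope

variable {s : ℕ} (F : Fan d) (Δ : (Fin d → ℤ) → ℝ) (D : Fin s → (Fin d → ℤ) → ℝ)

/-- The canonical threshold polytope, for a fan. -/
def canPoly : Set (Fin s → ℝ) :=
  {t | (∀ j, 0 ≤ t j) ∧ F.IsCanonical fun ρ => Δ ρ + ∑ j, t j * D j ρ}

/-- The constraints of the canonical threshold polytope. -/
def canFam : Set (Set (Fin s → ℝ)) :=
  {A | A = {t | ∀ j, 0 ≤ t j}} ∪ {A | 2 ≤ d ∧ ∃ ρ ∈ F.rays, A = raySet 0 ρ Δ D} ∪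
    {A | ∃ σ ∈ F.cones, ∃ τ ⊆ σ, LinearIndepOn ℝ toR (τ : Set (Fin d → ℤ)) ∧ 2 ≤ τ.card ∧
      A = coneSet 1 τ Δ D}

theorem Fan.rays_finite : F.rays.Finite := by
  have : F.rays = ⋃ σ ∈ F.cones, (σ : Set (Fin d → ℤ)) := by
    ext ρ
    simp [Fan.rays]
  rw [this]
  exact Set.Finite.biUnion (Finset.finite_toSet _) fun σ _ => Finset.finite_toSet σ

theorem canFam_finite : (canFam F Δ D).Finite := by
  classical
  refine Set.Finite.union (Set.Finite.union ?_ ?_) ?_
  · exact Set.finite_singleton _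
  · refine (F.rays_finite.image fun ρ => raySet 0 ρ Δ D).subset ?_
    rintro A ⟨_, ρ, hρ, rfl⟩
    exact ⟨ρ, hρ, rfl⟩
  · refine ((Finset.finite_toSet (F.cones.biUnion fun σ => σ.powerset)).image
      fun τ => coneSet 1 τ Δ D).subset ?_
    rintro A ⟨σ, hσ, τ, hτ, _, _, rfl⟩
    refine ⟨τ, ?_, rfl⟩
    simp only [Finset.coe_biUnion, Set.mem_iUnion, Finset.mem_coe, Finset.mem_powerset]
    exact ⟨σ, hσ, hτ⟩

theorem canPoly_eq (hK : F.IsRCartier fun ρ => 1 - Δ ρ) (hD : ∀ j, F.IsRCartier (D j)) :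
    canPoly F Δ D = ⋂₀ canFam F Δ D := by
  classical
  ext t
  constructor
  · rintro ⟨ht, h1, h2⟩ A ((hA | ⟨hd, ρ, hρ, rfl⟩) | ⟨σ, hσ, τ, hτ, hli, hcard, rfl⟩)
    · rw [show A = _ from hA]
      exact ht
    · refine ⟨ht, ?_⟩
      have := h1 hd ρ hρ
      linarith
    · refine ⟨ht, fun μ w hμ hw => ?_⟩
      obtain ⟨mK, hmK⟩ := hK σ hσ
      choose mD hmD using fun j => hD j σ hσ
      set m : (Fin d → ℝ) →ₗ[ℝ] ℝ := mK - ∑ j, t j • mD j with hm
      have hmρ : ∀ ρ ∈ σ, m (toR ρ) = 1 - (Δ ρ + ∑ j, t j * D j ρ) := by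
        intro ρ hρ
        rw [hm, LinearMap.sub_apply, hmK ρ hρ, LinearMap.sum_apply]
        simp only [LinearMap.smul_apply, smul_eq_mul]
        rw [Finset.sum_congr rfl fun j _ => by rw [hmD j ρ hρ]]
        ring
      have hτne : τ.Nonempty := Finset.card_pos.1 (by omega)
      have hw0 : w ≠ 0 := by
        rintro rfl
        rw [toR_zero] at hw
        rw [linearIndepOn_finset_iff] at hli
        obtain ⟨ρ, hρ⟩ := hτne
        have := hli μ hw ρ hρ
        exact (hμ ρ hρ).ne' this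
      obtain ⟨k, u, hk, hu, rfl⟩ := exists_primitive hw0
      have hk' : (0 : ℝ) < k := by exact_mod_cast hk
      have hk1 : (1 : ℝ) ≤ k := by exact_mod_cast hk
      rw [toR_smul] at hw
      have hray := F.notMem_rays hσ hτ hcard hμ hk' hw
      have hmem : toR u ∈ coneOf σ := by
        refine coneOf_mono hτ ⟨fun ρ => (k : ℝ)⁻¹ * μ ρ, fun ρ hρ => ?_, ?_⟩
        · have := hμ ρ hρ
          positivity
        · simp only [mul_smul]
          rw [← Finset.smul_sum, hw, smul_smul, inv_mul_cancel₀ hk'.ne', one_smul]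
      have h3 := h2 σ hσ m hmρ u hu hmem hray
      have h4 : ∑ ρ ∈ τ, μ ρ * (1 - Δ ρ - ∑ j, t j * D j ρ) = k * m (toR u) := by
        have h5 := congrArg m hw
        rw [map_sum, map_smul, smul_eq_mul] at h5
        rw [← h5]
        refine Finset.sum_congr rfl fun ρ hρ => ?_
        rw [map_smul, smul_eq_mul, hmρ ρ (hτ hρ)]
        ring
      rw [h4]
      nlinarith
  · intro h
    have ht : ∀ j, 0 ≤ t j := h _ (Or.inl (Or.inl rfl))
    refine ⟨ht, fun hd ρ hρ => ?_, fun σ hσ m hm w hw hmem hray => ?_⟩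
    · have h1 := (h (raySet 0 ρ Δ D) (Or.inl (Or.inr ⟨hd, ρ, hρ, rfl⟩))).2
      linarith
    · obtain ⟨μ, hμ, hsum⟩ := hmem
      obtain ⟨τ, hτ, hli, μ', hμ', hsum', _⟩ := exists_indep toR (fun _ => (0 : ℝ)) σ.card σ rfl
        (fun _ _ => le_rfl) μ hμ
      rw [hsum] at hsum'
      have hcard : 2 ≤ τ.card := by
        by_contra hcon
        have h1 : τ.card = 0 ∨ τ.card = 1 := by omega
        rcases h1 with h1 | h1
        · rw [Finset.card_eq_zero] at h1
          subst h1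
          rw [Finset.sum_empty, ← toR_zero] at hsum'
          exact hw.ne_zero (toR_injective hsum').symm
        · rw [Finset.card_eq_one] at h1
          obtain ⟨ρ, rfl⟩ := h1
          rw [Finset.sum_singleton] at hsum'
          have hρσ : ρ ∈ σ := hτ (Finset.mem_singleton_self ρ)
          have h2 := ((F.gens σ hσ).primitive ρ hρσ).eq_of_smul hw
            (hμ' ρ (Finset.mem_singleton_self ρ)) hsum'.symm
          exact hray ⟨σ, hσ, h2 ▸ hρσ⟩
      have h1 := (h (coneSet 1 τ Δ D) (Or.inr ⟨σ, hσ, τ, hτ, hli, hcard, rfl⟩)).2 μ' w hμ' hsum'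
      refine h1.trans (le_of_eq ?_)
      rw [← hsum', map_sum]
      refine Finset.sum_congr rfl fun ρ hρ => ?_
      rw [map_smul, smul_eq_mul, hm ρ (hτ hρ)]
      ring

end Polytope

theorem IsDCC.isPWO {Γ : Set ℝ} (h : IsDCC Γ) : Γ.IsPWO := by
  rw [Set.isPWO_iff_isWF, Set.isWF_iff_no_descending_seq]
  intro f hf hmem
  exact h ⟨f, hf, hmem⟩

theorem exists_polytope_subset {s : ℕ} {Γ : Set ℝ} (hΓ : IsDCC Γ) (T : ℕ → CanTuple d s Γ) :
    ∃ k l, k < l ∧ (T l).polytope ⊆ (T k).polytope := by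
  have hΓ' : (Γ ∪ {0}).IsPWO := hΓ.isPWO.union (Set.isPWO_singleton 0)
  have hG : ((Germs d s 1 (Γ ∪ {0})) ∪ (Germs 1 s 0 (Γ ∪ {0}))).PartiallyWellOrderedOn
      (fun A B => B ⊆ A) :=
    (germs_wqo d s 1 _ hΓ').union (germs_wqo 1 s 0 _ hΓ')
  obtain ⟨k, l, hkl, h⟩ := exists_inter hG (fun k => canFam (T k).fan (T k).Δ (T k).D)
    (fun k => canFam_finite _ _ _) (fun k => by
      rintro A ((hA | ⟨hd, ρ, hρ, rfl⟩) | ⟨σ, hσ, τ, hτ, hli, hcard, rfl⟩)
      · rw [show A = _ from hA]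
        exact Or.inr (Germs_mono (Nat.zero_le 1) (orthant_mem le_rfl))
      · exact Or.inr (raySet_mem le_rfl ((T k).Δ_mem ρ hρ) fun j => (T k).D_mem j ρ hρ)
      · exact Or.inl (coneSet_mem hli (fun ρ hρ => (T k).Δ_mem ρ ⟨σ, hσ, hτ hρ⟩)
          fun j ρ hρ => (T k).D_mem j ρ ⟨σ, hσ, hτ hρ⟩))
  refine ⟨k, l, hkl, ?_⟩
  rw [← canPoly_eq _ _ _ (T k).pair.2 (T k).cartier, ← canPoly_eq _ _ _ (T l).pair.2 (T l).cartier]
    at h
  exact h

end Pool.Agent.R890
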