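import Mathlib
import Pool.Agent.R890.ToricWqo
import Pool.Agent.R890.CompDefs
import Pool.Agent.H249R2.PM.Farkas

/-!
# Complementary thresholds of toric pairs
-/

set_option autoImplicit false

namespace Pool.Agent.R890

variable {d : ℕ}

/-- Farkas' lemma for inhomogeneous systems. -/
theorem farkas_inhom {U ι : Type} [AddCommGroup U] [Module ℝ U] (σ : Finset ι)
    (ℓ : ι → U →ₗ[ℝ] ℝ) (b : ι → ℝ) (h : ¬ ∃ x, ∀ i ∈ σ, ℓ i x ≤ b i) :
    ∃ μ : ι → ℝ, (∀ i, 0 ≤ μ i) ∧ (∀ x, ∑ i ∈ σ, μ i * ℓ i x = 0) ∧ ∑ i ∈ σ, μ i * b i < 0 := by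
  classical
  let e := σ.equivFin
  let L : Fin (σ.card + 1) → ((U × ℝ) →ₗ[ℝ] ℝ) :=
    Fin.snoc (fun i => (ℓ (e.symm i)).comp (LinearMap.fst ℝ U ℝ) -
      (b (e.symm i)) • LinearMap.snd ℝ U ℝ) (-(LinearMap.snd ℝ U ℝ))
  have hL : ∀ i : Fin σ.card, ∀ x t, L i.castSucc (x, t) = ℓ (e.symm i) x - b (e.symm i) * t := by
    intro i x t
    simp [L]
  have hL' : ∀ x t, L (Fin.last _) (x, t) = - t := by
    intro x t
    simp [L]
  obtain ⟨w, hw, hf⟩ := Pool.Agent.H249R2.PM.farkas_lin (σ.card + 1) L (LinearMap.snd ℝ U ℝ) (by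
    rintro ⟨x, t⟩ hx
    rw [LinearMap.snd_apply]
    by_contra ht
    push Not at ht
    apply h
    refine ⟨t⁻¹ • x, fun i hi => ?_⟩
    have h1 := hx (e ⟨i, hi⟩).castSucc
    rw [hL, e.symm_apply_apply] at h1
    simp only at h1
    rw [map_smul, smul_eq_mul, inv_mul_le_iff₀ ht]
    linarith)
  refine ⟨fun i => if hi : i ∈ σ then w (e ⟨i, hi⟩).castSucc else 0, fun i => ?_, fun x => ?_, ?_⟩
  · beta_reduce
    split_ifs
    · exact hw _
    · exact le_rfl
  · have h1 := hf (x, 0)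
    rw [Fin.sum_univ_castSucc, hL', neg_zero, mul_zero, add_zero] at h1
    simp only [hL, mul_zero, sub_zero, LinearMap.snd_apply] at h1
    rw [← Finset.sum_coe_sort σ]
    rw [← e.symm.sum_comp]
    rw [h1]
    refine Finset.sum_congr rfl fun i _ => ?_
    simp only [(e.symm i).2, dite_true, Subtype.coe_eta, Equiv.apply_symm_apply]
  · have h1 := hf (0, 1)
    rw [Fin.sum_univ_castSucc, hL'] at h1
    simp only [hL, map_zero, mul_one, LinearMap.snd_apply, zero_sub] at h1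
    have h2 : ∑ i ∈ σ, (if hi : i ∈ σ then w (e ⟨i, hi⟩).castSucc else 0) * b i =
        -∑ i : Fin σ.card, w i.castSucc * -b (e.symm i) := by
      rw [← Finset.sum_coe_sort σ, ← e.symm.sum_comp, ← Finset.sum_neg_distrib]
      refine Finset.sum_congr rfl fun i _ => ?_
      simp only [(e.symm i).2, dite_true, Subtype.coe_eta, Equiv.apply_symm_apply]
      ring
    rw [h2]
    have h3 := hw (Fin.last _)
    linarith

/-- The rays as a finite set. -/
noncomputable def Fan.rayFinset (F : Fan d) : Finset (Fin d → ℤ) := F.rays_finite.toFinset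

theorem Fan.mem_rayFinset (F : Fan d) {ρ : Fin d → ℤ} : ρ ∈ F.rayFinset ↔ ρ ∈ F.rays := by
  rw [Fan.rayFinset, Set.Finite.mem_toFinset]

theorem Fan.support_subset (F : Fan d) : F.support ⊆ coneOf F.rayFinset := by
  rintro x ⟨σ, hσ, hx⟩
  exact coneOf_mono (fun ρ hρ => F.mem_rayFinset.2 ⟨σ, hσ, hρ⟩) hx

theorem Fan.coneOf_subset (F : Fan d) (hF : Convex ℝ F.support) :
    coneOf F.rayFinset ⊆ F.support := by
  classical
  have hsmul : ∀ (c : ℝ), 0 ≤ c → ∀ x ∈ F.support, c • x ∈ F.support := by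
    rintro c hc x ⟨σ, hσ, μ, hμ, rfl⟩
    refine ⟨σ, hσ, fun ρ => c * μ ρ, fun ρ hρ => mul_nonneg hc (hμ ρ hρ), ?_⟩
    rw [Finset.smul_sum]
    exact Finset.sum_congr rfl fun ρ _ => mul_smul _ _ _
  have hadd : ∀ x ∈ F.support, ∀ y ∈ F.support, x + y ∈ F.support := by
    intro x hx y hy
    have h1 := hF hx hy (a := 1 / 2) (b := 1 / 2) (by norm_num) (by norm_num) (by norm_num)
    have h2 := hsmul 2 (by norm_num) _ h1
    rwa [smul_add, smul_smul, smul_smul, show (2 : ℝ) * (1 / 2) = 1 by norm_num, one_smul,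
      one_smul] at h2
  have hzero : (0 : Fin d → ℝ) ∈ F.support := by
    obtain ⟨σ, hσ⟩ := F.nonempty
    exact ⟨σ, hσ, fun _ => 0, fun _ _ => le_rfl, by simp⟩
  rintro x ⟨μ, hμ, rfl⟩
  have : ∀ τ ⊆ F.rayFinset, ∑ ρ ∈ τ, μ ρ • toR ρ ∈ F.support := by
    intro τ
    induction τ using Finset.induction_on with
    | empty =>
      intro _
      rw [Finset.sum_empty]
      exact hzero
    | insert ρ τ hρ ih =>
      intro hτ
      rw [Finset.sum_insert hρ]
      have hρ' : ρ ∈ F.rayFinset := hτ (Finset.mem_insert_self ρ τ)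
      refine hadd _ (hsmul _ (hμ ρ hρ') _ ?_) _ (ih ((Finset.subset_insert ρ τ).trans hτ))
      obtain ⟨σ, hσ, hρσ⟩ := F.mem_rayFinset.1 hρ'
      refine ⟨σ, hσ, fun ρ' => if ρ' = ρ then 1 else 0, fun ρ' _ => ?_, ?_⟩
      · beta_reduce
        split_ifs
        · exact zero_le_one
        · exact le_rfl
      · simp only [ite_smul, one_smul, zero_smul]
        rw [Finset.sum_ite_eq' σ ρ, if_pos hρσ]
  exact this _ subset_rfl

/-- The dual form of the complementarity condition. -/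
theorem Fan.isComplementary_iff (F : Fan d) (hF : Convex ℝ F.support) {ε : ℝ} (hε : 0 ≤ ε)
    (B : (Fin d → ℤ) → ℝ) : F.IsComplementary ε B ↔
      ∀ (μ : (Fin d → ℤ) → ℝ) (w : Fin d → ℤ), (∀ ρ ∈ F.rayFinset, 0 ≤ μ ρ) → w ≠ 0 →
        ∑ ρ ∈ F.rayFinset, μ ρ • toR ρ = toR w → ε ≤ ∑ ρ ∈ F.rayFinset, μ ρ * (1 - B ρ) := by
  classical
  constructor
  · intro h μ w hμ hw hsum
    obtain ⟨k, u, hk, hu, rfl⟩ := exists_primitive hw
    have hk' : (0 : ℝ) < k := by exact_mod_cast hk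
    have hk1 : (1 : ℝ) ≤ k := by exact_mod_cast hk
    rw [toR_smul] at hsum
    have hmem : toR u ∈ F.support := by
      refine F.coneOf_subset hF ⟨fun ρ => (k : ℝ)⁻¹ * μ ρ, fun ρ hρ => ?_, ?_⟩
      · have := hμ ρ hρ
        positivity
      · simp only [mul_smul]
        rw [← Finset.smul_sum, hsum, smul_smul, inv_mul_cancel₀ hk'.ne', one_smul]
    obtain ⟨m, hm, hmw⟩ := h u hu hmem
    have h1 := congrArg m hsum
    rw [map_sum, map_smul, smul_eq_mul] at h1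
    have h2 : ∑ ρ ∈ F.rayFinset, m (μ ρ • toR ρ) ≤ ∑ ρ ∈ F.rayFinset, μ ρ * (1 - B ρ) := by
      refine Finset.sum_le_sum fun ρ hρ => ?_
      rw [map_smul, smul_eq_mul]
      exact mul_le_mul_of_nonneg_left (hm ρ (F.mem_rayFinset.1 hρ)) (hμ ρ hρ)
    rw [h1] at h2
    nlinarith
  · intro h w hw hmem
    by_contra hcon
    -- the infeasible system
    let ℓ : Option (Fin d → ℤ) → ((Fin d → ℝ) →ₗ[ℝ] ℝ) →ₗ[ℝ] ℝ := fun o =>
      match o with
      | none => -(LinearMap.applyₗ (toR w))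
      | some ρ => LinearMap.applyₗ (toR ρ)
    let b : Option (Fin d → ℤ) → ℝ := fun o =>
      match o with
      | none => -ε
      | some ρ => 1 - B ρ
    obtain ⟨μ, hμ, h1, h2⟩ := farkas_inhom (Finset.insertNone F.rayFinset) ℓ b (by
      rintro ⟨m, hm⟩
      apply hcon
      refine ⟨m, fun ρ hρ => ?_, ?_⟩
      · exact hm (some ρ) (Finset.some_mem_insertNone.2 (F.mem_rayFinset.2 hρ))
      · have h3 : -(m (toR w)) ≤ -ε := hm none (Finset.none_mem_insertNone)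
        linarith)
    have h1' : ∀ m : (Fin d → ℝ) →ₗ[ℝ] ℝ,
        ∑ ρ ∈ F.rayFinset, μ (some ρ) * m (toR ρ) = μ none * m (toR w) := by
      intro m
      have h3 := h1 m
      rw [Finset.sum_insertNone] at h3
      have h4 : ℓ none m = -(m (toR w)) := rfl
      have h5 : ∀ ρ, ℓ (some ρ) m = m (toR ρ) := fun ρ => rfl
      rw [h4] at h3
      simp only [h5] at h3
      linarith
    have h1'' : ∑ ρ ∈ F.rayFinset, μ (some ρ) • toR ρ = μ none • toR w := by
      funext i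
      have h3 := h1' (LinearMap.proj i)
      simp only [LinearMap.proj_apply] at h3
      simp only [Finset.sum_apply, Pi.smul_apply, smul_eq_mul]
      exact h3
    rw [Finset.sum_insertNone] at h2
    have hb0 : b none = -ε := rfl
    have hbs : ∀ ρ, b (some ρ) = 1 - B ρ := fun ρ => rfl
    rw [hb0] at h2
    simp only [hbs] at h2
    obtain ⟨ν, hν, hνs⟩ := F.support_subset hmem
    rcases (hμ none).eq_or_lt with h0 | h0
    · -- a relation of negative cost
      rw [← h0, zero_smul] at h1''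
      rw [← h0, zero_mul, zero_add] at h2
      set s₁ := ∑ ρ ∈ F.rayFinset, μ (some ρ) * (1 - B ρ) with hs₁
      set s₂ := ∑ ρ ∈ F.rayFinset, ν ρ * (1 - B ρ) with hs₂
      obtain ⟨N, hN⟩ := exists_nat_gt ((s₂ - ε) / (-s₁))
      rw [div_lt_iff₀ (by linarith)] at hN
      have h3 := h (fun ρ => ν ρ + N * μ (some ρ)) w (fun ρ hρ => by
        have h4 := hν ρ hρ
        have h5 := hμ (some ρ)
        positivity) hw.ne_zero (by
        simp only [add_smul, mul_smul, Finset.sum_add_distrib, ← Finset.smul_sum]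
        rw [h1'', smul_zero, add_zero, hνs])
      simp only [add_mul, mul_assoc, Finset.sum_add_distrib, ← Finset.mul_sum] at h3
      nlinarith
    · have h3 := h (fun ρ => (μ none)⁻¹ * μ (some ρ)) w (fun ρ _ => by
        have h5 := hμ (some ρ)
        positivity) hw.ne_zero (by
        simp only [mul_smul, ← Finset.smul_sum]
        rw [h1'', smul_smul, inv_mul_cancel₀ h0.ne', one_smul])
      simp only [mul_assoc, ← Finset.mul_sum] at h3
      rw [← div_eq_inv_mul, le_div_iff₀ h0] at h3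
      nlinarith

/-- The constraints on the coefficient of `M`. -/
def compFam (F : Fan d) (ε : ℝ) (B M : (Fin d → ℤ) → ℝ) : Set (Set (Fin 1 → ℝ)) :=
  {A | A = {t | ∀ j, 0 ≤ t j}} ∪ {A | ∃ ρ ∈ F.rays, A = raySet ε ρ B (fun _ => M)} ∪
    {A | ∃ τ ⊆ F.rayFinset, LinearIndepOn ℝ toR (τ : Set (Fin d → ℤ)) ∧ τ.Nonempty ∧
      A = coneSet ε τ B (fun _ => M)}

theorem compFam_finite (F : Fan d) (ε : ℝ) (B M : (Fin d → ℤ) → ℝ) :
    (compFam F ε B M).Finite := by
  classical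
  refine Set.Finite.union (Set.Finite.union ?_ ?_) ?_
  · exact Set.finite_singleton _
  · refine (F.rays_finite.image fun ρ => raySet ε ρ B (fun _ => M)).subset ?_
    rintro A ⟨ρ, hρ, rfl⟩
    exact ⟨ρ, hρ, rfl⟩
  · refine ((Finset.finite_toSet F.rayFinset.powerset).image
      fun τ => coneSet ε τ B (fun _ => M)).subset ?_
    rintro A ⟨τ, hτ, _, _, rfl⟩
    refine ⟨τ, ?_, rfl⟩
    rw [Finset.mem_coe, Finset.mem_powerset]
    exact hτ

theorem compFam_inter (F : Fan d) (hF : Convex ℝ F.support) {ε : ℝ} (hε : 0 ≤ ε)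
    (B M : (Fin d → ℤ) → ℝ) : {t : Fin 1 → ℝ | 0 ≤ t 0 ∧ F.IsComplementary ε fun ρ =>
      B ρ + t 0 * M ρ} = ⋂₀ compFam F ε B M := by
  classical
  have hone : ∀ (t : Fin 1 → ℝ) (ρ : Fin d → ℤ),
      1 - B ρ - ∑ j, t j * (fun _ : Fin 1 => M) j ρ = 1 - (B ρ + t 0 * M ρ) := by
    intro t ρ
    rw [Fin.sum_univ_one]
    ring
  ext t
  rw [Set.mem_ofPred_eq, F.isComplementary_iff hF hε]
  constructor
  · rintro ⟨ht, h⟩ A ((hA | ⟨ρ, hρ, rfl⟩) | ⟨τ, hτ, hli, hne, rfl⟩)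
    · rw [show A = _ from hA]
      intro j
      rw [Subsingleton.elim j 0]
      exact ht
    · refine ⟨fun j => by rw [Subsingleton.elim j 0]; exact ht, ?_⟩
      rw [hone]
      have hρ' := F.mem_rayFinset.2 hρ
      obtain ⟨σ, hσ, hρσ⟩ := hρ
      have h1 := h (fun ρ' => if ρ' = ρ then 1 else 0) ρ (fun ρ' _ => by
        split_ifs
        · exact zero_le_one
        · exact le_rfl) ((F.gens σ hσ).primitive ρ hρσ).ne_zero (by
        simp only [ite_smul, one_smul, zero_smul]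
        rw [Finset.sum_ite_eq' _ ρ, if_pos hρ'])
      simp only [ite_mul, one_mul, zero_mul] at h1
      rw [Finset.sum_ite_eq' _ ρ, if_pos hρ'] at h1
      exact h1
    · refine ⟨fun j => by rw [Subsingleton.elim j 0]; exact ht, fun μ w hμ hw => ?_⟩
      simp only [hone]
      have hw0 : w ≠ 0 := by
        rintro rfl
        rw [toR_zero] at hw
        rw [linearIndepOn_finset_iff] at hli
        obtain ⟨ρ, hρ⟩ := hne
        exact (hμ ρ hρ).ne' (hli μ hw ρ hρ)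
      have h1 := h (fun ρ => if ρ ∈ τ then μ ρ else 0) w (fun ρ _ => by
        split_ifs with h2
        · exact (hμ ρ h2).le
        · exact le_rfl) hw0 (by
        simp only [ite_smul, zero_smul]
        rw [Finset.sum_ite_mem, Finset.inter_eq_right.2 hτ, hw])
      simp only [ite_mul, zero_mul] at h1
      rw [Finset.sum_ite_mem, Finset.inter_eq_right.2 hτ] at h1
      exact h1
  · intro h
    have ht : ∀ j, 0 ≤ t j := h _ (Or.inl (Or.inl rfl))
    refine ⟨ht 0, fun μ w hμ hw hsum => ?_⟩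
    have hc : ∀ ρ ∈ F.rayFinset, 0 ≤ 1 - (B ρ + t 0 * M ρ) := by
      intro ρ hρ
      have h1 := (h (raySet ε ρ B (fun _ => M))
        (Or.inl (Or.inr ⟨ρ, F.mem_rayFinset.1 hρ, rfl⟩))).2
      rw [hone] at h1
      exact hε.trans h1
    obtain ⟨τ, hτ, hli, μ', hμ', hsum', hcost⟩ := exists_indep toR
      (fun ρ => 1 - (B ρ + t 0 * M ρ)) _ F.rayFinset rfl hc μ hμ
    rw [hsum] at hsum'
    have hne : τ.Nonempty := by
      rw [Finset.nonempty_iff_ne_empty]
      rintro rfl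
      rw [Finset.sum_empty, ← toR_zero] at hsum'
      exact hw (toR_injective hsum').symm
    have h1 := (h (coneSet ε τ B (fun _ => M)) (Or.inr ⟨τ, hτ, hli, hne, rfl⟩)).2 μ' w hμ' hsum'
    simp only [hone] at h1
    exact h1.trans hcost

theorem exists_good_subset {ε : ℝ} (hε : 0 ≤ ε) {Γ₁ Γ₂ : Set ℝ} (hΓ₁ : IsDCC Γ₁)
    (hΓ₂ : IsDCC Γ₂) (T : ℕ → CompTuple d ε Γ₁ Γ₂) : ∃ k l, k < l ∧ (T l).good ⊆ (T k).good := by
  have hΓ' : (Γ₁ ∪ Γ₂ ∪ {0}).IsPWO :=
    (hΓ₁.isPWO.union hΓ₂.isPWO).union (Set.isPWO_singleton 0)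
  have hG : ((Germs d 1 ε (Γ₁ ∪ Γ₂ ∪ {0})) ∪ (Germs 1 1 ε (Γ₁ ∪ Γ₂ ∪ {0})) ∪
      (Germs 0 1 0 (Γ₁ ∪ Γ₂ ∪ {0}))).PartiallyWellOrderedOn (fun A B => B ⊆ A) :=
    ((germs_wqo d 1 ε _ hΓ').union (germs_wqo 1 1 ε _ hΓ')).union (germs_wqo 0 1 0 _ hΓ')
  have hB : ∀ x, x ∈ Γ₁ ∪ {0} → x ∈ Γ₁ ∪ Γ₂ ∪ {0} := by
    rintro x (h | h)
    · exact Or.inl (Or.inl h)
    · exact Or.inr h
  have hM : ∀ x, x ∈ Γ₂ ∪ {0} → x ∈ Γ₁ ∪ Γ₂ ∪ {0} := by
    rintro x (h | h)
    · exact Or.inl (Or.inr h)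
    · exact Or.inr h
  obtain ⟨k, l, hkl, h⟩ := exists_inter hG (fun k => compFam (T k).fan ε (T k).B (T k).M)
    (fun k => compFam_finite _ _ _ _) (fun k => by
      rintro A ((hA | ⟨ρ, hρ, rfl⟩) | ⟨τ, hτ, hli, hne, rfl⟩)
      · rw [show A = _ from hA]
        exact Or.inr (orthant_mem le_rfl)
      · exact Or.inl (Or.inr (raySet_mem hε (hB _ ((T k).B_mem ρ hρ))
          fun j => hM _ ((T k).M_mem ρ hρ)))
      · exact Or.inl (Or.inl (coneSet_mem hli
          (fun ρ hρ => hB _ ((T k).B_mem ρ ((T k).fan.mem_rayFinset.1 (hτ hρ))))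
          fun j ρ hρ => hM _ ((T k).M_mem ρ ((T k).fan.mem_rayFinset.1 (hτ hρ))))))
  refine ⟨k, l, hkl, fun t ht => ?_⟩
  rw [← compFam_inter _ (T k).convex hε, ← compFam_inter _ (T l).convex hε] at h
  exact h (show (fun _ => t : Fin 1 → ℝ) ∈ _ from ht)

end Pool.Agent.R890
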